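import Mathlib

set_option autoImplicit false
open Equiv Finset

namespace Pool.Agent.H303R3

variable {k : ℕ}

/-- permutations fixing a tuple -/
def stab (a : Fin k → ℕ) : Finset (Perm (Fin k)) := {σ | a ∘ σ = a}

lemma mem_stab {a : Fin k → ℕ} {σ : Perm (Fin k)} : σ ∈ stab a ↔ a ∘ σ = a := by simp [stab]

open Classical in
lemma card_mono (a : Fin k → ℕ) : #{τ : Perm (Fin k) | Monotone (a ∘ τ)} = #(stab a) := by
  apply Finset.card_equiv (Equiv.mulRight (Tuple.sort a)⁻¹)
  intro τ
  rw [mem_stab, Finset.mem_filter, ← Tuple.comp_sort_eq_comp_iff_monotone]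
  simp only [Finset.mem_univ, true_and, Equiv.coe_mulRight]
  constructor
  · intro h
    funext i
    have := congrFun h ((Tuple.sort a)⁻¹ i)
    simpa using this
  · intro h
    funext i
    have := congrFun h (Tuple.sort a i)
    simpa using this

open Classical in
lemma card_strict (a : Fin k → ℕ) :
    (#{τ : Perm (Fin k) | StrictMono (a ∘ τ)} : ℤ) = ∑ σ ∈ stab a, ((Perm.sign σ : ℤˣ) : ℤ) := by
  by_cases ha : Function.Injective a
  · have h1 : stab a = {1} := by
      ext σ
      rw [mem_stab, Finset.mem_singleton]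
      constructor
      · intro h
        ext i
        have := congrFun h i
        rw [ha this]; rfl
      · rintro rfl; rfl
    have h2 : ({τ : Perm (Fin k) | StrictMono (a ∘ τ)} : Finset _) = {Tuple.sort a} := by
      ext τ
      rw [Finset.mem_filter, Finset.mem_singleton]
      simp only [Finset.mem_univ, true_and]
      constructor
      · intro h
        have h3 := (Tuple.comp_sort_eq_comp_iff_monotone (f := a) (σ := τ)).mpr h.monotone
        ext i
        have := congrFun h3 i
        rw [ha this]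
      · rintro rfl
        exact (Tuple.monotone_sort a).strictMono_of_injective (ha.comp (Tuple.sort a).injective)
    rw [h1, h2]
    simp
  · have h1 : ({τ : Perm (Fin k) | StrictMono (a ∘ τ)} : Finset _) = ∅ := by
      rw [Finset.filter_eq_empty_iff]
      intro τ _ h
      apply ha
      have h2 := h.injective.comp τ.symm.injective
      have h3 : (a ∘ τ) ∘ τ.symm = a := by
        funext i; simp
      rwa [h3] at h2
    rw [h1]
    simp only [Finset.card_empty, Nat.cast_zero]
    symm
    unfold Function.Injective at ha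
    push Not at ha
    obtain ⟨i, j, hij, hne⟩ := ha
    apply Finset.sum_involution (fun σ _ => σ * swap i j)
    · intro σ _
      rw [Perm.sign_mul, Perm.sign_swap hne]
      simp
    · intro σ _ _ h
      have : swap i j = 1 := by simpa using h
      exact hne (by simpa using congrArg (fun e : Perm (Fin k) => e j) this)
    · intro σ hσ
      rw [mem_stab] at hσ ⊢
      funext l
      have h2 : (a ∘ ⇑(σ * swap i j)) l = (a ∘ σ) (swap i j l) := rfl
      rw [h2, hσ]
      by_cases hl : l = i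
      · rw [hl, swap_apply_left, hij]
      · by_cases hl2 : l = j
        · rw [hl2, swap_apply_right, hij]
        · rw [swap_apply_of_ne_of_ne hl hl2]
    · intro σ _
      rw [mul_assoc, swap_mul_self, mul_one]

/-- tuples from `A` with sum `n` -/
noncomputable def tup (A : Set ℕ) (k n : ℕ) : Finset (Fin k → ℕ) :=
  @Finset.filter _ (fun a => ∀ j : Fin k, a j ∈ A) (Classical.decPred _) (Finset.Nat.antidiagonalTuple k n)

lemma mem_tup {A : Set ℕ} {n : ℕ} {a : Fin k → ℕ} :
    a ∈ tup A k n ↔ (∀ j, a j ∈ A) ∧ ∑ j, a j = n := by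
  simp only [tup, Finset.mem_filter, Finset.Nat.mem_antidiagonalTuple]
  exact and_comm

lemma comp_mem_tup {A : Set ℕ} {n : ℕ} {a : Fin k → ℕ} (τ : Perm (Fin k)) :
    a ∘ τ ∈ tup A k n ↔ a ∈ tup A k n := by
  rw [mem_tup, mem_tup]
  have h1 : ∑ j, (a ∘ τ) j = ∑ j, a j := Equiv.sum_comp τ a
  rw [h1]
  constructor
  · rintro ⟨h2, h3⟩
    exact ⟨fun j => by simpa using h2 (τ.symm j), h3⟩
  · rintro ⟨h2, h3⟩
    exact ⟨fun j => h2 (τ j), h3⟩

open Classical in
lemma burnside (A : Set ℕ) (n : ℕ) (P : (Fin k → ℕ) → Prop) (χ : Perm (Fin k) → ℤ)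
    (h : ∀ a, (#{τ : Perm (Fin k) | P (a ∘ τ)} : ℤ) = ∑ σ ∈ stab a, χ σ) :
    (k.factorial : ℤ) * #{a ∈ tup A k n | P a} = ∑ σ, χ σ * #{a ∈ tup A k n | a ∘ σ = a} := by
  have h1 : ∑ a ∈ tup A k n, (#{τ : Perm (Fin k) | P (a ∘ τ)} : ℤ)
      = (k.factorial : ℤ) * #{a ∈ tup A k n | P a} := by
    have h2 : ∀ a : Fin k → ℕ, (#{τ : Perm (Fin k) | P (a ∘ τ)} : ℤ)
        = ∑ τ : Perm (Fin k), if P (a ∘ τ) then (1 : ℤ) else 0 := by
      intro a
      rw [Finset.card_filter]; push_cast; rfl
    simp_rw [h2]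
    rw [Finset.sum_comm]
    have h3 : ∀ τ : Perm (Fin k), (∑ a ∈ tup A k n, if P (a ∘ τ) then (1 : ℤ) else 0)
        = #{a ∈ tup A k n | P a} := by
      intro τ
      rw [Finset.card_filter]
      push_cast
      apply Finset.sum_bij (fun a _ => a ∘ τ)
      · intro a ha
        exact (comp_mem_tup τ).mpr ha
      · intro a _ b _ hab
        funext j
        simpa using congrFun hab (τ.symm j)
      · intro b hb
        refine ⟨b ∘ τ.symm, (comp_mem_tup τ.symm).mpr hb, ?_⟩
        funext j; simp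
      · intro a _; rfl
    rw [Finset.sum_congr rfl fun τ _ => h3 τ, Finset.sum_const, Finset.card_univ, Fintype.card_perm,
      Fintype.card_fin, nsmul_eq_mul]
  rw [← h1, Finset.sum_congr rfl fun a _ => h a]
  have h4 : ∀ a : Fin k → ℕ, ∑ σ ∈ stab a, χ σ = ∑ σ : Perm (Fin k), if a ∘ σ = a then χ σ else 0 := by
    intro a
    unfold stab
    rw [Finset.sum_filter]
  simp_rw [h4]
  rw [Finset.sum_comm]
  refine Finset.sum_congr rfl fun σ _ => ?_
  rw [Finset.card_filter]
  push_cast
  rw [Finset.mul_sum]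
  refine Finset.sum_congr rfl fun a _ => ?_
  split_ifs <;> simp

/-- generic product of indicator series -/
lemma prod_coeff {ι : Type*} [Fintype ι] [DecidableEq ι] (A : Set ℕ) (e : ι → ℕ) (he : ∀ i, 0 < e i) (n : ℕ)
    (Pf : ℕ → PowerSeries ℂ) (hP : ∀ m n, PowerSeries.coeff n (Pf m)
      = (open Classical in if ∃ b ∈ A, m * b = n then 1 else 0)) :
    PowerSeries.coeff n (∏ i, Pf (e i))
      = (Set.ncard {b : ι → ℕ | (∀ i, b i ∈ A) ∧ ∑ i, e i * b i = n} : ℂ) := by
  classical
  rw [PowerSeries.coeff_prod]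
  simp only [hP]
  have h1 : ∀ l : ι →₀ ℕ, (∏ i, (if ∃ b ∈ A, e i * b = l i then (1 : ℂ) else 0))
      = if (∀ i, ∃ b ∈ A, e i * b = l i) then 1 else 0 := by
    intro l
    rw [Finset.prod_ite_zero]
    simp
  simp only [h1]
  rw [Finset.sum_boole]
  congr 1
  rw [← Set.ncard_coe_finset]
  refine Set.ncard_congr (fun l _ => fun i => l i / e i) ?_ ?_ ?_
  · intro l hl
    simp only [Finset.coe_filter, Finset.mem_finsuppAntidiag, Set.mem_ofPred_eq] at hl
    obtain ⟨⟨h2, _⟩, h3⟩ := hl
    have h4 : ∀ i, e i * (l i / e i) = l i ∧ l i / e i ∈ A := by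
      intro i
      obtain ⟨b, hb, hbe⟩ := h3 i
      have : l i / e i = b := by rw [← hbe, Nat.mul_div_cancel_left _ (he i)]
      rw [this]
      exact ⟨hbe, hb⟩
    refine ⟨fun i => (h4 i).2, ?_⟩
    rw [← h2]
    exact Finset.sum_congr rfl fun i _ => (h4 i).1
  · intro l m hl hm hlm
    simp only [Finset.coe_filter, Finset.mem_finsuppAntidiag, Set.mem_ofPred_eq] at hl hm
    ext i
    obtain ⟨b, _, hb⟩ := hl.2 i
    obtain ⟨c, _, hc⟩ := hm.2 i
    have h5 := congrFun hlm i
    rw [← hb, ← hc, Nat.mul_div_cancel_left _ (he i), Nat.mul_div_cancel_left _ (he i)] at h5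
    rw [← hb, ← hc, h5]
  · intro b hb
    refine ⟨Finsupp.equivFunOnFinite.symm fun i => e i * b i, ?_, ?_⟩
    · simp only [Finset.coe_filter, Finset.mem_finsuppAntidiag, Set.mem_ofPred_eq,
        Finsupp.equivFunOnFinite_symm_apply_apply]
      exact ⟨⟨hb.2, Finset.subset_univ _⟩, fun i => ⟨b i, hb.1 i, rfl⟩⟩
    · funext i
      simp only [Finsupp.equivFunOnFinite_symm_apply_apply]
      exact Nat.mul_div_cancel_left _ (he i)

end Pool.Agent.H303R3
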