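import Mathlib

set_option autoImplicit false
open Filter Topology MeasureTheory
open scoped ENNReal

namespace Pool.Agent.H303R3

/-- absolute convergence of a power series in the open unit disc -/
def Conv (F : PowerSeries ℂ) : Prop :=
  ∀ ρ : ℝ, 0 ≤ ρ → ρ < 1 → Summable fun n => ‖PowerSeries.coeff n F‖ * ρ ^ n

/-- the sum of a power series -/
noncomputable def ev (F : PowerSeries ℂ) (z : ℂ) : ℂ := ∑' n, PowerSeries.coeff n F * z ^ n

lemma Conv.summable_norm {F : PowerSeries ℂ} (h : Conv F) {z : ℂ} (hz : ‖z‖ < 1) :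
    Summable fun n => ‖PowerSeries.coeff n F * z ^ n‖ := by
  have := h ‖z‖ (norm_nonneg z) hz
  simpa [norm_mul, norm_pow] using this

lemma Conv.summable {F : PowerSeries ℂ} (h : Conv F) {z : ℂ} (hz : ‖z‖ < 1) :
    Summable fun n => PowerSeries.coeff n F * z ^ n := (h.summable_norm hz).of_norm

lemma Conv.hasSum {F : PowerSeries ℂ} (h : Conv F) {z : ℂ} (hz : ‖z‖ < 1) :
    HasSum (fun n => PowerSeries.coeff n F * z ^ n) (ev F z) := (h.summable hz).hasSum

/-- bounded coefficients give convergence -/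
lemma Conv.of_bdd {F : PowerSeries ℂ} {B : ℝ} (h : ∀ n, ‖PowerSeries.coeff n F‖ ≤ B) : Conv F := by
  intro ρ h0 h1
  refine Summable.of_nonneg_of_le (fun n => by positivity) (fun n => ?_)
    ((summable_geometric_of_lt_one h0 h1).mul_left B)
  exact mul_le_mul_of_nonneg_right (h n) (by positivity)

lemma Conv.of_le {F : PowerSeries ℂ} {b : ℕ → ℝ} (h : ∀ n, ‖PowerSeries.coeff n F‖ ≤ b n)
    (hb : ∀ ρ : ℝ, 0 ≤ ρ → ρ < 1 → Summable fun n => b n * ρ ^ n) : Conv F := by
  intro ρ h0 h1
  exact Summable.of_nonneg_of_le (fun n => by positivity)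
    (fun n => mul_le_mul_of_nonneg_right (h n) (by positivity)) (hb ρ h0 h1)

lemma Conv.add {F G : PowerSeries ℂ} (hF : Conv F) (hG : Conv G) : Conv (F + G) := by
  refine Conv.of_le (b := fun n => ‖PowerSeries.coeff n F‖ + ‖PowerSeries.coeff n G‖) (fun n => ?_) ?_
  · rw [map_add]; exact norm_add_le _ _
  · intro ρ h0 h1
    simp_rw [add_mul]
    exact (hF ρ h0 h1).add (hG ρ h0 h1)

lemma Conv.smul {F : PowerSeries ℂ} (c : ℂ) (hF : Conv F) : Conv (c • F) := by
  refine Conv.of_le (b := fun n => ‖c‖ * ‖PowerSeries.coeff n F‖) (fun n => ?_) ?_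
  · rw [PowerSeries.coeff_smul, norm_smul]
  · intro ρ h0 h1
    simp_rw [mul_assoc]
    exact (hF ρ h0 h1).mul_left _

lemma Conv.zero : Conv 0 := by
  intro ρ _ _
  simp

lemma Conv.one : Conv 1 := by
  refine Conv.of_bdd (B := 1) (fun n => ?_)
  rw [PowerSeries.coeff_one]
  split_ifs <;> simp

lemma Conv.sum {ι : Type*} {s : Finset ι} {F : ι → PowerSeries ℂ} (h : ∀ i ∈ s, Conv (F i)) :
    Conv (∑ i ∈ s, F i) := by
  classical
  induction s using Finset.induction_on with
  | empty => simpa using Conv.zero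
  | insert a s ha ih =>
    rw [Finset.sum_insert ha]
    exact (h a (Finset.mem_insert_self _ _)).add (ih fun i hi => h i (Finset.mem_insert_of_mem hi))

lemma Conv.mul {F G : PowerSeries ℂ} (hF : Conv F) (hG : Conv G) : Conv (F * G) := by
  refine Conv.of_le (b := fun n => ∑ p ∈ Finset.HasAntidiagonal.antidiagonal n,
    ‖PowerSeries.coeff p.1 F‖ * ‖PowerSeries.coeff p.2 G‖) (fun n => ?_) ?_
  · rw [PowerSeries.coeff_mul]
    refine (norm_sum_le _ _).trans (le_of_eq ?_)
    simp
  · intro ρ h0 h1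
    have h2 := summable_norm_sum_mul_antidiagonal_of_summable_norm
      (f := fun n => ‖PowerSeries.coeff n F‖ * ρ ^ n) (g := fun n => ‖PowerSeries.coeff n G‖ * ρ ^ n)
      (by simpa [abs_of_nonneg h0] using hF ρ h0 h1) (by simpa [abs_of_nonneg h0] using hG ρ h0 h1)
    refine h2.congr (fun n => ?_)
    rw [Finset.sum_mul, Real.norm_of_nonneg (Finset.sum_nonneg fun i _ => by positivity)]
    refine Finset.sum_congr rfl fun p hp => ?_
    rw [← Finset.HasAntidiagonal.mem_antidiagonal.mp hp, pow_add]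
    ring

lemma Conv.prod {ι : Type*} {s : Finset ι} {F : ι → PowerSeries ℂ} (h : ∀ i ∈ s, Conv (F i)) :
    Conv (∏ i ∈ s, F i) := by
  classical
  induction s using Finset.induction_on with
  | empty => simpa using Conv.one
  | insert a s ha ih =>
    rw [Finset.prod_insert ha]
    exact (h a (Finset.mem_insert_self _ _)).mul (ih fun i hi => h i (Finset.mem_insert_of_mem hi))

lemma ev_zero (z : ℂ) : ev 0 z = 0 := by simp [ev]

lemma ev_one (z : ℂ) : ev 1 z = 1 := by
  unfold ev
  rw [tsum_eq_single 0]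
  · simp
  · intro n hn
    rw [PowerSeries.coeff_one, if_neg hn, zero_mul]

lemma ev_add {F G : PowerSeries ℂ} (hF : Conv F) (hG : Conv G) {z : ℂ} (hz : ‖z‖ < 1) :
    ev (F + G) z = ev F z + ev G z := by
  unfold ev
  rw [← (hF.summable hz).tsum_add (hG.summable hz)]
  refine tsum_congr fun n => ?_
  rw [map_add, add_mul]

lemma ev_smul (c : ℂ) (F : PowerSeries ℂ) (z : ℂ) : ev (c • F) z = c * ev F z := by
  unfold ev
  rw [← tsum_mul_left]
  refine tsum_congr fun n => ?_
  rw [PowerSeries.coeff_smul, smul_eq_mul, mul_assoc]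

lemma ev_sum {ι : Type*} {s : Finset ι} {F : ι → PowerSeries ℂ} (h : ∀ i ∈ s, Conv (F i)) {z : ℂ}
    (hz : ‖z‖ < 1) : ev (∑ i ∈ s, F i) z = ∑ i ∈ s, ev (F i) z := by
  classical
  induction s using Finset.induction_on with
  | empty => simp [ev_zero]
  | insert a s ha ih =>
    rw [Finset.sum_insert ha, Finset.sum_insert ha, ev_add (h a (Finset.mem_insert_self _ _))
      (Conv.sum fun i hi => h i (Finset.mem_insert_of_mem hi)) hz,
      ih fun i hi => h i (Finset.mem_insert_of_mem hi)]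

lemma ev_mul {F G : PowerSeries ℂ} (hF : Conv F) (hG : Conv G) {z : ℂ} (hz : ‖z‖ < 1) :
    ev (F * G) z = ev F z * ev G z := by
  unfold ev
  rw [tsum_mul_tsum_eq_tsum_sum_antidiagonal_of_summable_norm (hF.summable_norm hz)
    (hG.summable_norm hz)]
  refine tsum_congr fun n => ?_
  rw [PowerSeries.coeff_mul, Finset.sum_mul]
  refine Finset.sum_congr rfl fun p hp => ?_
  rw [← Finset.HasAntidiagonal.mem_antidiagonal.mp hp, pow_add]
  ring

lemma ev_prod {ι : Type*} {s : Finset ι} {F : ι → PowerSeries ℂ} (h : ∀ i ∈ s, Conv (F i)) {z : ℂ}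
    (hz : ‖z‖ < 1) : ev (∏ i ∈ s, F i) z = ∏ i ∈ s, ev (F i) z := by
  classical
  induction s using Finset.induction_on with
  | empty => simp [ev_one]
  | insert a s ha ih =>
    rw [Finset.prod_insert ha, Finset.prod_insert ha, ev_mul (h a (Finset.mem_insert_self _ _))
      (Conv.prod fun i hi => h i (Finset.mem_insert_of_mem hi)) hz,
      ih fun i hi => h i (Finset.mem_insert_of_mem hi)]

/-- the normalised measure on the circle parameter -/
noncomputable def mu : Measure ℝ := (ENNReal.ofReal (2 * Real.pi))⁻¹ • volume.restrict (Set.Ioc 0 (2 * Real.pi))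

instance : IsProbabilityMeasure mu := by
  constructor
  have h : ENNReal.ofReal (2 * Real.pi) ≠ 0 := by simp [Real.pi_pos]
  simp only [mu, Measure.smul_apply, MeasurableSet.univ, Measure.restrict_apply, Set.univ_inter,
    Real.volume_Ioc, sub_zero, smul_eq_mul]
  exact ENNReal.inv_mul_cancel h ENNReal.ofReal_ne_top

lemma lintegral_mu_eq {g : ℂ → ℝ} (r : ℝ) (hg : Continuous fun θ : ℝ => g (circleMap 0 r θ))
    (h0 : ∀ θ, 0 ≤ g (circleMap 0 r θ)) :
    ∫⁻ θ, ENNReal.ofReal (g (circleMap 0 r θ)) ∂mu = ENNReal.ofReal (Real.circleAverage g 0 r) := by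
  have hpi : (0 : ℝ) < 2 * Real.pi := by positivity
  unfold mu Real.circleAverage
  rw [lintegral_smul_measure, ← ofReal_integral_eq_lintegral_ofReal]
  · rw [smul_eq_mul, smul_eq_mul, ENNReal.ofReal_mul (p := (2 * Real.pi)⁻¹) (by positivity),
      ENNReal.ofReal_inv_of_pos hpi, intervalIntegral.integral_of_le hpi.le]
  · exact (hg.integrableOn_Icc).mono_set Set.Ioc_subset_Icc_self
  · exact Eventually.of_forall fun θ => h0 θ

lemma ev_cont {F : PowerSeries ℂ} (hF : Conv F) {r : ℝ} (h0 : 0 ≤ r) (h1 : r < 1) :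
    Continuous fun θ : ℝ => ev F (circleMap 0 r θ) := by
  unfold ev
  refine continuous_tsum (u := fun n => ‖PowerSeries.coeff n F‖ * r ^ n) (fun n => ?_) (hF r h0 h1) ?_
  · exact continuous_const.mul ((continuous_circleMap 0 r).pow n)
  · intro n θ
    rw [norm_mul, norm_pow, norm_circleMap_zero, abs_of_nonneg h0]

lemma parseval_fin (p : ℕ → ℂ) (r : ℝ) (h0 : 0 ≤ r) (N : ℕ) :
    Real.circleAverage (fun z => ‖∑ n ∈ Finset.range N, p n * z ^ n‖ ^ 2) 0 r
      = ∑ n ∈ Finset.range N, ‖p n‖ ^ 2 * (r ^ 2) ^ n := by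
  set q : Polynomial ℂ := ∑ n ∈ Finset.range N, Polynomial.monomial n (p n * (r : ℂ) ^ n) with hq
  have hqc : ∀ n, q.coeff n = if n < N then p n * (r : ℂ) ^ n else 0 := by
    intro n
    simp [hq, Polynomial.finsetSum_coeff, Polynomial.coeff_monomial]
  have hqe : ∀ z, q.eval z = ∑ n ∈ Finset.range N, p n * (r : ℂ) ^ n * z ^ n := by
    intro z
    simp [hq, Polynomial.eval_finsetSum, Polynomial.eval_monomial]
  have h1 : Real.circleAverage (fun z => ‖∑ n ∈ Finset.range N, p n * z ^ n‖ ^ 2) 0 r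
      = Real.circleAverage (fun z => ‖q.eval z‖ ^ 2) 0 1 := by
    unfold Real.circleAverage
    congr 1
    apply intervalIntegral.integral_congr
    intro θ _
    simp only [hqe]
    congr 2
    refine Finset.sum_congr rfl fun n _ => ?_
    simp only [circleMap_zero]
    push_cast
    ring
  rw [h1, ← Polynomial.sum_sq_norm_coeff_eq_circleAverage]
  have h2 : ∀ n, ‖q.coeff n‖ ^ 2 = if n < N then ‖p n‖ ^ 2 * (r ^ 2) ^ n else 0 := by
    intro n
    rw [hqc]
    split_ifs
    · rw [norm_mul, norm_pow, Complex.norm_real, Real.norm_of_nonneg h0, mul_pow, ← pow_mul, ← pow_mul,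
        mul_comm 2 n]
    · simp
  have h3 : ∑ n ∈ Finset.range N, ‖p n‖ ^ 2 * (r ^ 2) ^ n = ∑ n ∈ Finset.range N, ‖q.coeff n‖ ^ 2 := by
    refine Finset.sum_congr rfl fun n hn => ?_
    rw [h2, if_pos (Finset.mem_range.mp hn)]
  rw [h3]
  apply Finset.sum_subset
  · intro n hn
    rw [Polynomial.mem_support_iff, hqc] at hn
    rw [Finset.mem_range]
    by_contra h
    exact hn (if_neg h)
  · intro n _ hn
    rw [Polynomial.notMem_support_iff] at hn
    rw [hn]; simp

lemma parseval {F : PowerSeries ℂ} (hF : Conv F) {r : ℝ} (h0 : 0 ≤ r) (h1 : r < 1) :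
    HasSum (fun n => ‖PowerSeries.coeff n F‖ ^ 2 * (r ^ 2) ^ n)
      (Real.circleAverage (fun z => ‖ev F z‖ ^ 2) 0 r) := by
  rw [hasSum_iff_tendsto_nat_of_nonneg (fun n => by positivity)]
  simp_rw [← parseval_fin _ r h0]
  unfold Real.circleAverage
  apply Tendsto.const_smul
  have hmem : ∀ θ : ℝ, ‖circleMap 0 r θ‖ = r := by
    intro θ
    rw [norm_circleMap_zero, abs_of_nonneg h0]
  apply intervalIntegral.tendsto_integral_filter_of_dominated_convergence
    (fun _ => (∑' n, ‖PowerSeries.coeff n F‖ * r ^ n) ^ 2)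
  · filter_upwards with N
    apply Continuous.aestronglyMeasurable
    fun_prop
  · filter_upwards with N
    filter_upwards with θ _
    rw [Real.norm_of_nonneg (by positivity)]
    apply pow_le_pow_left₀ (norm_nonneg _)
    refine (norm_sum_le _ _).trans ?_
    refine le_trans (le_of_eq ?_) ((hF r h0 h1).sum_le_tsum (Finset.range N) (fun i _ => by positivity))
    refine Finset.sum_congr rfl fun n _ => ?_
    rw [norm_mul, norm_pow, hmem]
  · exact intervalIntegrable_const
  · filter_upwards with θ _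
    have hs := hF.hasSum (z := circleMap 0 r θ) (by rw [hmem]; exact h1)
    exact (hs.tendsto_sum_nat.norm).pow 2

/-- Parseval as a lower integral -/
lemma lint_parseval {F : PowerSeries ℂ} (hF : Conv F) {r : ℝ} (h0 : 0 ≤ r) (h1 : r < 1) :
    ∫⁻ θ, ‖ev F (circleMap 0 r θ)‖ₑ ^ (2 : ℝ) ∂mu
      = ENNReal.ofReal (∑' n, ‖PowerSeries.coeff n F‖ ^ 2 * (r ^ 2) ^ n) := by
  rw [(parseval hF h0 h1).tsum_eq, ← lintegral_mu_eq r ((ev_cont hF h0 h1).norm.pow 2) (fun θ => by positivity)]
  refine lintegral_congr fun θ => ?_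
  rw [ENNReal.ofReal_pow (norm_nonneg _), ofReal_norm]
  norm_cast

end Pool.Agent.H303R3
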