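import Pool.Agent.H303R3.TwoMain
import Pool.Agent.H303R3.Comb

set_option autoImplicit false
open Filter Topology MeasureTheory
open scoped ENNReal

namespace Pool.Agent.H303R3

variable {k : ℕ}

open Classical in
/-- `∑_{b ∈ A} X^(m b)` -/
noncomputable def Pf (A : Set ℕ) (m : ℕ) : PowerSeries ℂ :=
  PowerSeries.mk fun n => if ∃ b ∈ A, m * b = n then 1 else 0

lemma coeff_Pf (A : Set ℕ) (m n : ℕ) : PowerSeries.coeff n (Pf A m)
    = (open Classical in if ∃ b ∈ A, m * b = n then 1 else 0) := by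
  unfold Pf
  rw [PowerSeries.coeff_mk]

lemma Pf_one (A : Set ℕ) : Pf A 1 = ind A := by
  ext n
  rw [coeff_Pf]
  unfold ind
  rw [PowerSeries.coeff_mk]
  have h : (∃ b ∈ A, 1 * b = n) ↔ n ∈ A := by simp
  by_cases hn : n ∈ A
  · rw [if_pos hn, if_pos (h.mpr hn)]
  · rw [if_neg hn, if_neg (fun h' => hn (h.mp h'))]

lemma conv_Pf (A : Set ℕ) (m : ℕ) : Conv (Pf A m) := by
  refine Conv.of_bdd (B := 1) fun n => ?_
  rw [coeff_Pf]
  split_ifs <;> simp

open Classical in
/-- series counting tuples fixed by `σ` -/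
noncomputable def Fs (A : Set ℕ) (σ : Equiv.Perm (Fin k)) : PowerSeries ℂ :=
  PowerSeries.mk fun n => ((Finset.card {a ∈ tup A k n | a ∘ σ = a} : ℕ) : ℂ)

lemma Fs_one (A : Set ℕ) : Fs A (1 : Equiv.Perm (Fin k)) = (ind A) ^ k := by
  classical
  have h1 : (ind A) ^ k = ∏ _i : Fin k, Pf A 1 := by
    rw [Finset.prod_const, Finset.card_univ, Fintype.card_fin, Pf_one]
  rw [h1]
  ext n
  rw [prod_coeff A (fun _ : Fin k => 1) (fun _ => one_pos) n (Pf A) (coeff_Pf A)]
  unfold Fs
  rw [PowerSeries.coeff_mk, ← Set.ncard_coe_finset]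
  congr 2
  ext a
  simp [mem_tup]

lemma Fs_eq (A : Set ℕ) (σ : Equiv.Perm (Fin k)) :
    ∃ (ι : Type) (_ : Fintype ι) (e : ι → ℕ), (∀ i, 0 < e i) ∧ Fs A σ = ∏ i, Pf A (e i) ∧
      (σ ≠ 1 → Fintype.card ι < k) := by
  classical
  let S : Setoid (Fin k) := Equiv.Perm.SameCycle.setoid σ
  let ι := Quotient S
  have : Fintype ι := Fintype.ofFinite ι
  let mk : Fin k → ι := fun j => Quotient.mk S j
  let e : ι → ℕ := fun q => Finset.card {j : Fin k | mk j = q}
  have hmk : Function.Surjective mk := Quotient.mk_surjective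
  have hcyc : ∀ x, mk (σ x) = mk x := by
    intro x
    apply Quotient.sound
    change σ.SameCycle (σ x) x
    exact ⟨-1, by simp⟩
  have he : ∀ q, 0 < e q := by
    intro q
    obtain ⟨j, hj⟩ := hmk q
    exact Finset.card_pos.mpr ⟨j, by simp [hj]⟩
  refine ⟨ι, inferInstance, e, he, ?_, ?_⟩
  · ext n
    rw [prod_coeff A e he n (Pf A) (coeff_Pf A)]
    unfold Fs
    rw [PowerSeries.coeff_mk, ← Set.ncard_coe_finset]
    congr 1
    symm
    have hsum : ∀ b : ι → ℕ, ∑ j, b (mk j) = ∑ q, e q * b q := by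
      intro b
      have h1 : ∀ j, b (mk j) = ∑ q, if mk j = q then b q else 0 := by
        intro j
        rw [Finset.sum_ite_eq Finset.univ (mk j) b]
        simp
      rw [Finset.sum_congr rfl fun j _ => h1 j, Finset.sum_comm]
      refine Finset.sum_congr rfl fun q _ => ?_
      rw [← Finset.sum_filter, Finset.sum_const, smul_eq_mul]
    refine Set.ncard_congr (fun b _ => fun j => b (mk j)) ?_ ?_ ?_
    · intro b hb
      simp only [Finset.coe_filter, Set.mem_ofPred_eq, mem_tup]
      refine ⟨⟨fun j => hb.1 _, ?_⟩, ?_⟩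
      · rw [hsum, hb.2]
      · funext j
        simp [hcyc]
    · intro b c _ _ hbc
      funext q
      obtain ⟨j, rfl⟩ := hmk q
      exact congrFun hbc j
    · intro a ha
      simp only [Finset.coe_filter, Set.mem_ofPred_eq, mem_tup] at ha
      obtain ⟨⟨h1, h2⟩, h3⟩ := ha
      have h4 : ∀ x, a (σ x) = a x := fun x => congrFun h3 x
      have h4' : ∀ x, a (σ⁻¹ x) = a x := by
        intro x
        have := h4 (σ⁻¹ x)
        rw [← this]; simp
      have h5 : ∀ (i : ℤ) (x : Fin k), a ((σ ^ i) x) = a x := by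
        intro i
        induction i using Int.induction_on with
        | zero => intro x; simp
        | succ i ih =>
          intro x
          rw [add_comm, zpow_add, zpow_one, Equiv.Perm.mul_apply, h4, ih]
        | pred i ih =>
          intro x
          rw [sub_eq_neg_add, zpow_add, zpow_neg_one, Equiv.Perm.mul_apply, h4', ih]
      have h6 : ∀ x y : Fin k, S.r x y → a x = a y := by
        rintro x y ⟨i, hi⟩
        rw [← hi, h5]
      let b : ι → ℕ := Quotient.lift a h6
      have hb : ∀ j, b (mk j) = a j := fun j => rfl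
      refine ⟨b, ⟨?_, ?_⟩, ?_⟩
      · intro q
        obtain ⟨j, rfl⟩ := hmk q
        rw [hb]; exact h1 j
      · rw [← hsum]
        simp only [hb]
        exact h2
      · funext j
        exact hb j
  · intro hσ
    have h1 : ¬ Function.Injective mk := by
      intro hinj
      apply hσ
      ext x
      have := hinj (hcyc x)
      rw [this]; rfl
    have := Fintype.card_lt_of_surjective_not_injective mk hmk h1
    simpa using this

lemma conv_Fs (A : Set ℕ) (σ : Equiv.Perm (Fin k)) : Conv (Fs A σ) := by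
  obtain ⟨ι, _, e, _, h, _⟩ := Fs_eq A σ
  rw [h]
  exact Conv.prod fun i _ => conv_Pf A _

lemma summable_fr (A : Set ℕ) {q : ℝ} (h0 : 0 ≤ q) (h1 : q < 1) :
    Summable fun n : ℕ => (open Classical in if n ∈ A then (1 : ℝ) else 0) * q ^ n := by
  classical
  refine Summable.of_nonneg_of_le (fun n => ?_) (fun n => ?_) (summable_geometric_of_lt_one h0 h1)
  · split_ifs <;> positivity
  · split_ifs
    · rw [one_mul]
    · rw [zero_mul]; positivity

lemma Pf_l2 (A : Set ℕ) {m : ℕ} (hm : 0 < m) {q : ℝ} (h0 : 0 ≤ q) (h1 : q < 1) :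
    ∑' n, ‖PowerSeries.coeff n (Pf A m)‖ ^ 2 * q ^ n ≤ fr A q := by
  classical
  have h2 : ∀ n, ‖PowerSeries.coeff n (Pf A m)‖ ^ 2 * q ^ n
      = (if ∃ b ∈ A, m * b = n then (1 : ℝ) else 0) * q ^ n := by
    intro n
    rw [coeff_Pf]
    split_ifs <;> simp
  rw [tsum_congr h2]
  have hinj : Function.Injective fun b : ℕ => m * b := fun a b hab => Nat.eq_of_mul_eq_mul_left hm hab
  rw [← hinj.tsum_eq]
  · unfold fr
    have h3 : ∀ b : ℕ, (if ∃ b' ∈ A, m * b' = m * b then (1 : ℝ) else 0) * q ^ (m * b)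
        ≤ (if b ∈ A then (1 : ℝ) else 0) * q ^ b := by
      intro b
      have h4 : (∃ b' ∈ A, m * b' = m * b) ↔ b ∈ A := by
        constructor
        · rintro ⟨b', hb', hbb⟩
          rwa [← hinj hbb]
        · intro hb
          exact ⟨b, hb, rfl⟩
      simp only [h4]
      split_ifs
      · rw [one_mul, one_mul]
        exact pow_le_pow_of_le_one h0 h1.le (Nat.le_mul_of_pos_left b hm)
      · simp
    apply Summable.tsum_le_tsum h3 _ (summable_fr A h0 h1)
    exact Summable.of_nonneg_of_le (fun b => by split_ifs <;> positivity) h3 (summable_fr A h0 h1)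
  · intro n hn
    rw [Function.mem_support] at hn
    by_contra h
    apply hn
    rw [if_neg, zero_mul]
    rintro ⟨b, _, hb⟩
    exact h ⟨b, hb⟩

lemma lint_prod (A : Set ℕ) {k : ℕ} (hk : 0 < k) {ι : Type} [Fintype ι] (e : ι → ℕ) (he : ∀ i, 0 < e i)
    (hc : Fintype.card ι ≤ k) {r : ℝ} (h0 : 0 ≤ r) (h1 : r < 1) :
    ∫⁻ θ, ‖ev (∏ i, Pf A (e i)) (circleMap 0 r θ)‖ₑ ^ (2 / k : ℝ) ∂mu
      ≤ ENNReal.ofReal (fr A (r ^ 2)) ^ ((Fintype.card ι : ℝ) / k) := by
  classical
  have hk' : (0 : ℝ) < k := by exact_mod_cast hk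
  have hcirc : ∀ θ : ℝ, ‖circleMap 0 r θ‖ < 1 := by
    intro θ
    rwa [norm_circleMap_zero, abs_of_nonneg h0]
  let g : Option ι → ℝ → ℝ≥0∞ := fun o θ =>
    match o with
    | none => 1
    | some i => ‖ev (Pf A (e i)) (circleMap 0 r θ)‖ₑ ^ (2 : ℝ)
  let p : Option ι → ℝ := fun o =>
    match o with
    | none => 1 - (Fintype.card ι : ℝ) / k
    | some _ => 1 / k
  have hcr : (Fintype.card ι : ℝ) ≤ k := by exact_mod_cast hc
  have h2 := ENNReal.lintegral_prod_norm_pow_le (μ := mu) (Finset.univ : Finset (Option ι)) (f := g) (p := p)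
    (by
      intro o _
      cases o with
      | none => exact aemeasurable_const
      | some i => exact ((ev_cont (conv_Pf A (e i)) h0 h1).measurable.enorm.pow_const _).aemeasurable)
    (by
      rw [Fintype.sum_option]
      simp only [p, Finset.sum_const, Finset.card_univ, nsmul_eq_mul]
      ring)
    (by
      intro o _
      cases o with
      | none =>
        simp only [p]
        rw [sub_nonneg, div_le_one hk']
        exact hcr
      | some i => simp only [p]; positivity)
  have h3 : ∀ θ, ∏ o : Option ι, g o θ ^ p o = ‖ev (∏ i, Pf A (e i)) (circleMap 0 r θ)‖ₑ ^ (2 / k : ℝ) := by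
    intro θ
    rw [Fintype.prod_option]
    simp only [g, p, ENNReal.one_rpow, one_mul]
    rw [ev_prod (fun i _ => conv_Pf A (e i)) (hcirc θ)]
    have h4 : ‖∏ i, ev (Pf A (e i)) (circleMap 0 r θ)‖ₑ = ∏ i, ‖ev (Pf A (e i)) (circleMap 0 r θ)‖ₑ := by
      rw [← ofReal_norm, norm_prod, ENNReal.ofReal_prod_of_nonneg (fun i _ => norm_nonneg _)]
      simp only [ofReal_norm]
    rw [h4, ← ENNReal.prod_rpow_of_nonneg (by positivity)]
    refine Finset.prod_congr rfl fun i _ => ?_
    rw [← ENNReal.rpow_mul]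
    congr 1
    ring
  simp_rw [h3] at h2
  refine h2.trans ?_
  rw [Fintype.prod_option]
  simp only [g, p, lintegral_const, measure_univ, mul_one, ENNReal.one_rpow, one_mul]
  calc ∏ i, (∫⁻ θ, ‖ev (Pf A (e i)) (circleMap 0 r θ)‖ₑ ^ (2 : ℝ) ∂mu) ^ (1 / k : ℝ)
      ≤ ∏ _i : ι, ENNReal.ofReal (fr A (r ^ 2)) ^ (1 / k : ℝ) := by
        refine Finset.prod_le_prod' fun i _ => ?_
        apply ENNReal.rpow_le_rpow _ (by positivity)
        rw [lint_parseval (conv_Pf A (e i)) h0 h1]
        apply ENNReal.ofReal_le_ofReal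
        exact Pf_l2 A (he i) (by positivity) (by nlinarith)
    _ = _ := by
        rw [Finset.prod_const, Finset.card_univ, ← ENNReal.rpow_natCast, ← ENNReal.rpow_mul]
        congr 1
        ring

end Pool.Agent.H303R3
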