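import Pool.Agent.H303R3.KF

set_option autoImplicit false
open Filter Topology MeasureTheory
open scoped ENNReal

namespace Pool.Agent.H303R3

variable {k : ℕ}

open Classical in
/-- number of tuples with property `P` -/
noncomputable def Rn (A : Set ℕ) (P : (Fin k → ℕ) → Prop) (n : ℕ) : ℕ := Finset.card {a ∈ tup A k n | P a}

/-- generating series -/
noncomputable def Rps (A : Set ℕ) (P : (Fin k → ℕ) → Prop) : PowerSeries ℂ :=
  PowerSeries.mk fun n => (Rn A P n : ℂ)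

lemma coeff_Fs_one (A : Set ℕ) (n : ℕ) :
    PowerSeries.coeff n (Fs A (1 : Equiv.Perm (Fin k))) = ((tup A k n).card : ℂ) := by
  classical
  unfold Fs
  rw [PowerSeries.coeff_mk]
  congr 2
  rw [Finset.filter_true_of_mem]
  intro a _
  rfl

open Classical in
lemma Rn_le (A : Set ℕ) (P : (Fin k → ℕ) → Prop) (n : ℕ) : Rn A P n ≤ (tup A k n).card := by
  unfold Rn
  exact Finset.card_filter_le _ _

lemma conv_Rps (A : Set ℕ) (P : (Fin k → ℕ) → Prop) : Conv (Rps A P) := by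
  refine Conv.of_le (b := fun n => ‖PowerSeries.coeff n (Fs A (1 : Equiv.Perm (Fin k)))‖) (fun n => ?_)
    (conv_Fs A 1)
  rw [coeff_Fs_one]
  unfold Rps
  rw [PowerSeries.coeff_mk, Complex.norm_natCast, Complex.norm_natCast]
  exact_mod_cast Rn_le A P n

lemma rel (A : Set ℕ) (P : (Fin k → ℕ) → Prop) (χ : Equiv.Perm (Fin k) → ℤ)
    (h : ∀ a, ((open Classical in Finset.card {τ : Equiv.Perm (Fin k) | P (a ∘ τ)} : ℕ) : ℤ) = ∑ σ ∈ stab a, χ σ) :
    (k.factorial : ℂ) • Rps A P = ∑ σ : Equiv.Perm (Fin k), (χ σ : ℂ) • Fs A σ := by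
  classical
  ext n
  rw [PowerSeries.coeff_smul, map_sum]
  simp only [PowerSeries.coeff_smul, smul_eq_mul]
  unfold Rps Fs
  simp only [PowerSeries.coeff_mk]
  have h1 := burnside A n P χ h
  unfold Rn
  exact_mod_cast h1

lemma ev_Fs_one (A : Set ℕ) {z : ℂ} (hz : ‖z‖ < 1) :
    ev (Fs A (1 : Equiv.Perm (Fin k))) z = ev (ind A) z ^ k := by
  have h1 : (ind A) ^ k = ∏ _i : Fin k, ind A := by
    rw [Finset.prod_const, Finset.card_univ, Fintype.card_fin]
  rw [Fs_one, h1, ev_prod (fun _ _ => conv_ind A) hz, Finset.prod_const, Finset.card_univ, Fintype.card_fin]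

lemma pointwise (A : Set ℕ) (P : (Fin k → ℕ) → Prop) (χ : Equiv.Perm (Fin k) → ℤ)
    (h : ∀ a, ((open Classical in Finset.card {τ : Equiv.Perm (Fin k) | P (a ∘ τ)} : ℕ) : ℤ) = ∑ σ ∈ stab a, χ σ)
    (h1 : 1 ≤ χ 1) (h2 : ∀ σ, σ ≠ 1 → |χ σ| ≤ 1) {z : ℂ} (hz : ‖z‖ < 1) :
    ‖ev (ind A) z‖ ^ k ≤ k.factorial * ‖ev (Rps A P) z‖
      + ∑ σ ∈ Finset.univ.erase (1 : Equiv.Perm (Fin k)), ‖ev (Fs A σ) z‖ := by
  classical
  have h3 := congrArg (fun F => ev F z) (rel A P χ h)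
  rw [ev_smul, ev_sum (fun σ _ => (conv_Fs A σ).smul _) hz] at h3
  simp only [ev_smul] at h3
  rw [← Finset.add_sum_erase _ _ (Finset.mem_univ (1 : Equiv.Perm (Fin k))), ev_Fs_one A hz] at h3
  have h4 : (χ 1 : ℂ) * ev (ind A) z ^ k = (k.factorial : ℂ) * ev (Rps A P) z
      - ∑ σ ∈ Finset.univ.erase (1 : Equiv.Perm (Fin k)), (χ σ : ℂ) * ev (Fs A σ) z := by
    rw [h3]; ring
  have h5 : ‖(χ 1 : ℂ) * ev (ind A) z ^ k‖ ≤ k.factorial * ‖ev (Rps A P) z‖
      + ∑ σ ∈ Finset.univ.erase (1 : Equiv.Perm (Fin k)), ‖ev (Fs A σ) z‖ := by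
    rw [h4]
    refine (norm_sub_le _ _).trans ?_
    apply add_le_add
    · rw [norm_mul, Complex.norm_natCast]
    · refine (norm_sum_le _ _).trans ?_
      apply Finset.sum_le_sum
      intro σ hσ
      rw [norm_mul, Complex.norm_intCast]
      have h6 : (|(χ σ : ℝ)|) ≤ 1 := by
        have := h2 σ (Finset.ne_of_mem_erase hσ)
        exact_mod_cast this
      calc |(χ σ : ℝ)| * ‖ev (Fs A σ) z‖ ≤ 1 * ‖ev (Fs A σ) z‖ := by gcongr
        _ = _ := one_mul _
  refine le_trans ?_ h5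
  rw [norm_mul, norm_pow, Complex.norm_intCast]
  have h7 : (1 : ℝ) ≤ |(χ 1 : ℝ)| := by
    rw [le_abs]; left; exact_mod_cast h1
  calc ‖ev (ind A) z‖ ^ k = 1 * ‖ev (ind A) z‖ ^ k := (one_mul _).symm
    _ ≤ _ := by gcongr

/-- real generating function of the counts -/
noncomputable def Rr (A : Set ℕ) (P : (Fin k → ℕ) → Prop) (q : ℝ) : ℝ := ∑' n, (Rn A P n : ℝ) * q ^ n

lemma summable_Rr (A : Set ℕ) (P : (Fin k → ℕ) → Prop) {q : ℝ} (h0 : 0 ≤ q) (h1 : q < 1) :
    Summable fun n => (Rn A P n : ℝ) * q ^ n := by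
  have := conv_Rps A P q h0 h1
  unfold Rps at this
  simpa using this

lemma ev_Rps_real (A : Set ℕ) (P : (Fin k → ℕ) → Prop) (q : ℝ) :
    ev (Rps A P) (q : ℂ) = (Rr A P q : ℂ) := by
  unfold ev Rr Rps
  rw [Complex.ofReal_tsum]
  refine tsum_congr fun n => ?_
  simp

lemma Rr_le (A : Set ℕ) (P : (Fin k → ℕ) → Prop) {q : ℝ} (h0 : 0 ≤ q) (h1 : q < 1) :
    Rr A P q ≤ fr A q ^ k := by
  have hz : ‖(q : ℂ)‖ < 1 := by rwa [Complex.norm_real, Real.norm_of_nonneg h0]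
  have h2 := ev_Fs_one (k := k) A hz
  rw [ev_ind_real] at h2
  have h3 : ev (Fs A (1 : Equiv.Perm (Fin k))) (q : ℂ) = ((∑' n, ((tup A k n).card : ℝ) * q ^ n : ℝ) : ℂ) := by
    unfold ev
    rw [Complex.ofReal_tsum]
    refine tsum_congr fun n => ?_
    rw [coeff_Fs_one]
    simp
  rw [h3] at h2
  have h4 : (∑' n, ((tup A k n).card : ℝ) * q ^ n) = fr A q ^ k := by exact_mod_cast h2
  rw [← h4]
  have h5 : Summable fun n => ((tup A k n).card : ℝ) * q ^ n := by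
    have := conv_Fs A (1 : Equiv.Perm (Fin k)) q h0 h1
    simp only [coeff_Fs_one] at this
    simpa using this
  apply Summable.tsum_le_tsum _ (summable_Rr A P h0 h1) h5
  intro n
  apply mul_le_mul_of_nonneg_right _ (by positivity)
  exact_mod_cast Rn_le A P n

/-- difference coefficients -/
noncomputable def dn (A : Set ℕ) (P : (Fin k → ℕ) → Prop) : ℕ → ℝ
  | 0 => Rn A P 0
  | n + 1 => (Rn A P (n + 1) : ℝ) - Rn A P n

lemma dps_eq (A : Set ℕ) (P : (Fin k → ℕ) → Prop) :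
    (PowerSeries.mk fun n => (dn A P n : ℂ)) = (1 - PowerSeries.X) * Rps A P := by
  ext n
  rw [sub_mul, one_mul, map_sub, PowerSeries.coeff_mk]
  unfold Rps
  cases n with
  | zero => simp [dn]
  | succ n =>
    rw [PowerSeries.coeff_succ_X_mul, PowerSeries.coeff_mk, PowerSeries.coeff_mk]
    simp [dn]

lemma conv_one_sub_X : Conv (1 - PowerSeries.X : PowerSeries ℂ) := by
  refine Conv.of_bdd (B := 2) fun n => ?_
  rw [map_sub, PowerSeries.coeff_one, PowerSeries.coeff_X]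
  refine (norm_sub_le _ _).trans ?_
  split_ifs <;> norm_num

lemma ev_one_sub_X (z : ℂ) : ev (1 - PowerSeries.X) z = 1 - z := by
  unfold ev
  rw [tsum_eq_sum (s := Finset.range 2)]
  · rw [Finset.sum_range_succ, Finset.sum_range_one]
    simp [PowerSeries.coeff_X, PowerSeries.coeff_one]
    ring
  · intro n hn
    rw [Finset.mem_range] at hn
    have h0 : n ≠ 0 := by omega
    have h1 : n ≠ 1 := by omega
    rw [map_sub, PowerSeries.coeff_one, PowerSeries.coeff_X, if_neg h0, if_neg h1]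
    simp

lemma kernel_ineq (A : Set ℕ) (P : (Fin k → ℕ) → Prop)
    (hmono : ∃ n₀, ∀ n, n₀ ≤ n → Rn A P n ≤ Rn A P (n + 1)) :
    ∃ C0 : ℝ, 0 ≤ C0 ∧ ∀ z : ℂ, ‖z‖ < 1 →
      ‖1 - z‖ * ‖ev (Rps A P) z‖ ≤ C0 + (1 - ‖z‖) * Rr A P ‖z‖ := by
  obtain ⟨n₀, hn₀⟩ := hmono
  refine ⟨∑ n ∈ Finset.range (n₀ + 1), 2 * |dn A P n|, Finset.sum_nonneg fun n _ => by positivity, ?_⟩
  intro z hz
  set q := ‖z‖ with hq
  have hq0 : 0 ≤ q := norm_nonneg z
  have hDc : Conv (PowerSeries.mk fun n => (dn A P n : ℂ)) := by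
    rw [dps_eq]
    exact conv_one_sub_X.mul (conv_Rps A P)
  have h1 : ‖1 - z‖ * ‖ev (Rps A P) z‖ = ‖ev (PowerSeries.mk fun n => (dn A P n : ℂ)) z‖ := by
    rw [dps_eq, ev_mul conv_one_sub_X (conv_Rps A P) hz, ev_one_sub_X, norm_mul]
  have hs : Summable fun n => |dn A P n| * q ^ n := by
    have := hDc q hq0 hz
    simpa using this
  have hs' : Summable fun n => dn A P n * q ^ n := by
    apply Summable.of_abs
    refine hs.congr fun n => ?_
    rw [abs_mul, abs_of_nonneg (pow_nonneg hq0 n)]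
  have h2 : ‖ev (PowerSeries.mk fun n => (dn A P n : ℂ)) z‖ ≤ ∑' n, |dn A P n| * q ^ n := by
    unfold ev
    have h3 := norm_tsum_le_tsum_norm (hDc.summable_norm hz)
    refine h3.trans (le_of_eq ?_)
    refine tsum_congr fun n => ?_
    rw [norm_mul, norm_pow, PowerSeries.coeff_mk, Complex.norm_real, Real.norm_eq_abs]
  have h4 : ∑' n, dn A P n * q ^ n = (1 - q) * Rr A P q := by
    have hz' : ‖(q : ℂ)‖ < 1 := by rwa [Complex.norm_real, Real.norm_of_nonneg hq0]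
    have h5 : ev (PowerSeries.mk fun n => (dn A P n : ℂ)) (q : ℂ) = (1 - q) * (Rr A P q : ℂ) := by
      rw [dps_eq, ev_mul conv_one_sub_X (conv_Rps A P) hz', ev_one_sub_X, ev_Rps_real]
    have h6 : ev (PowerSeries.mk fun n => (dn A P n : ℂ)) (q : ℂ) = ((∑' n, dn A P n * q ^ n : ℝ) : ℂ) := by
      unfold ev
      rw [Complex.ofReal_tsum]
      refine tsum_congr fun n => ?_
      simp
    rw [h6] at h5
    exact_mod_cast h5
  have hexs : HasSum (fun n : ℕ => if n ∈ Finset.range (n₀ + 1) then 2 * |dn A P n| else 0)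
      (∑ n ∈ Finset.range (n₀ + 1), 2 * |dn A P n|) := by
    have : (∑ n ∈ Finset.range (n₀ + 1), 2 * |dn A P n|)
        = ∑ n ∈ Finset.range (n₀ + 1), (if n ∈ Finset.range (n₀ + 1) then 2 * |dn A P n| else 0) := by
      refine Finset.sum_congr rfl fun n hn => ?_
      rw [if_pos hn]
    rw [this]
    apply hasSum_sum_of_ne_finset_zero
    intro n hn
    rw [if_neg hn]
  rw [h1]
  refine h2.trans ?_
  rw [← h4, ← hexs.tsum_eq, ← hexs.summable.tsum_add hs']
  apply Summable.tsum_le_tsum _ hs (hexs.summable.add hs')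
  intro n
  by_cases hn : n ∈ Finset.range (n₀ + 1)
  · rw [if_pos hn]
    have h7 : q ^ n ≤ 1 := pow_le_one₀ hq0 hz.le
    have h8 : 0 ≤ q ^ n := by positivity
    have h9 : 0 ≤ |dn A P n| := abs_nonneg _
    have h10 : -|dn A P n| ≤ dn A P n := neg_abs_le _
    nlinarith
  · rw [if_neg hn, zero_add]
    rw [Finset.mem_range] at hn
    have h11 : 0 ≤ dn A P n := by
      obtain ⟨m, rfl⟩ : ∃ m, n = m + 1 := ⟨n - 1, by omega⟩
      simp only [dn]
      have := hn₀ m (by omega)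
      have : (Rn A P m : ℝ) ≤ Rn A P (m + 1) := by exact_mod_cast this
      linarith
    rw [abs_of_nonneg h11]

lemma enn_sum_rpow {ι : Type*} (s : Finset ι) (f : ι → ℝ≥0∞) {p : ℝ} (hp : 0 < p) (hp1 : p ≤ 1) :
    (∑ i ∈ s, f i) ^ p ≤ ∑ i ∈ s, f i ^ p := by
  classical
  induction s using Finset.induction_on with
  | empty => simp [ENNReal.zero_rpow_of_pos hp]
  | insert a s ha ih =>
    rw [Finset.sum_insert ha, Finset.sum_insert ha]
    exact (ENNReal.rpow_add_le_add_rpow _ _ hp.le hp1).trans (add_le_add le_rfl ih)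

end Pool.Agent.H303R3
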