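import Pool.Agent.H303R3.KG

set_option autoImplicit false
open Filter Topology MeasureTheory
open scoped ENNReal

namespace Pool.Agent.H303R3

variable {k : ℕ}

lemma main_ineq (hk : 2 ≤ k) (A : Set ℕ) (P : (Fin k → ℕ) → Prop) (χ : Equiv.Perm (Fin k) → ℤ)
    (h : ∀ a, ((open Classical in Finset.card {τ : Equiv.Perm (Fin k) | P (a ∘ τ)} : ℕ) : ℤ) = ∑ σ ∈ stab a, χ σ)
    (h1 : 1 ≤ χ 1) (h2 : ∀ σ, σ ≠ 1 → |χ σ| ≤ 1)
    (hmono : ∃ n₀, ∀ n, n₀ ≤ n → Rn A P n ≤ Rn A P (n + 1)) {δ : ℝ} (hδ : 0 < δ) (hδ2 : δ ≤ 2 / k) :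
    ∃ Cs C0 : ℝ, 0 ≤ Cs ∧ 0 ≤ C0 ∧ ∀ r : ℝ, 0 ≤ r → r < 1 → 1 ≤ fr A (r ^ 2) →
      fr A (r ^ 2) ≤ Cs * (k.factorial * (C0 + (1 - r) * Rr A P r)) ^ (2 / k : ℝ) * (1 - r) ^ (-δ)
        + k.factorial * fr A (r ^ 2) ^ (((k : ℝ) - 1) / k) := by
  classical
  have hk0 : (0 : ℝ) < k := by exact_mod_cast (by omega : 0 < k)
  have hk2 : (2 : ℝ) ≤ k := by exact_mod_cast hk
  have hp0 : (0 : ℝ) < 2 / k := by positivity
  have hp1 : (2 / k : ℝ) ≤ 1 := by rw [div_le_one hk0]; exact hk2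
  obtain ⟨C, hC, hker⟩ := kernel_bound (s := 2 / k - δ) (by linarith) (by linarith)
  obtain ⟨C0, hC0, hK⟩ := kernel_ineq A P hmono
  refine ⟨C.toReal, C0, ENNReal.toReal_nonneg, hC0, fun r h0 h3 hM => ?_⟩
  set M := fr A (r ^ 2) with hMdef
  have h1r : 0 < 1 - r := by linarith
  have hnorm : ∀ θ : ℝ, ‖circleMap 0 r θ‖ = r := by
    intro θ
    rw [norm_circleMap_zero, abs_of_nonneg h0]
  have hcirc : ∀ θ : ℝ, ‖circleMap 0 r θ‖ < 1 := by
    intro θ
    rw [hnorm]; exact h3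
  have hRr0 : 0 ≤ Rr A P r := by
    unfold Rr
    exact tsum_nonneg fun n => by positivity
  set W := C0 + (1 - r) * Rr A P r with hW
  have hW0 : 0 ≤ W := by positivity
  have hfact : (0 : ℝ) ≤ (k.factorial : ℝ) := by positivity
  set E := Finset.univ.erase (1 : Equiv.Perm (Fin k)) with hE
  have hf : ∫⁻ θ, ‖ev (ind A) (circleMap 0 r θ)‖ₑ ^ (2 : ℝ) ∂mu = ENNReal.ofReal M := by
    rw [lint_parseval (conv_ind A) h0 h3]
    congr 1
    rw [hMdef]
    unfold fr
    refine tsum_congr fun n => ?_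
    unfold ind
    rw [PowerSeries.coeff_mk]
    split_ifs <;> simp
  have hpt : ∀ θ : ℝ, ‖ev (ind A) (circleMap 0 r θ)‖ₑ ^ (2 : ℝ)
      ≤ ENNReal.ofReal ((k.factorial * W) ^ (2 / k : ℝ) * (1 - r) ^ (-δ))
          * ENNReal.ofReal (‖1 - circleMap 0 r θ‖ ^ (-(2 / k - δ)))
        + ∑ σ ∈ E, ‖ev (Fs A σ) (circleMap 0 r θ)‖ₑ ^ (2 / k : ℝ) := by
    intro θ
    set z := circleMap 0 r θ with hz
    have hz1 : ‖z‖ < 1 := hcirc θ
    have ha := pointwise A P χ h h1 h2 hz1
    have hb : ‖ev (ind A) z‖ₑ ^ k ≤ ENNReal.ofReal (k.factorial * ‖ev (Rps A P) z‖)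
        + ∑ σ ∈ E, ‖ev (Fs A σ) z‖ₑ := by
      have hc := ENNReal.ofReal_le_ofReal ha
      rw [ENNReal.ofReal_add (by positivity) (Finset.sum_nonneg fun _ _ => norm_nonneg _),
        ENNReal.ofReal_pow (norm_nonneg _), ENNReal.ofReal_sum_of_nonneg (fun _ _ => norm_nonneg _)] at hc
      simpa only [ofReal_norm] using hc
    have hd : ‖ev (ind A) z‖ₑ ^ (2 : ℝ) = (‖ev (ind A) z‖ₑ ^ k) ^ (2 / k : ℝ) := by
      rw [← ENNReal.rpow_natCast, ← ENNReal.rpow_mul]
      congr 1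
      field_simp
    rw [hd]
    refine (ENNReal.rpow_le_rpow hb hp0.le).trans ?_
    refine (ENNReal.rpow_add_le_add_rpow _ _ hp0.le hp1).trans ?_
    apply add_le_add _ (enn_sum_rpow E _ hp0 hp1)
    rw [ENNReal.ofReal_rpow_of_nonneg (by positivity) hp0.le, ← ENNReal.ofReal_mul (by positivity)]
    apply ENNReal.ofReal_le_ofReal
    have he : 1 - r ≤ ‖1 - z‖ := by
      have := norm_sub_norm_le (1 : ℂ) z
      rw [hz, hnorm] at this
      simpa using this
    have he0 : 0 < ‖1 - z‖ := h1r.trans_le he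
    have hg := hK z hz1
    rw [hz, hnorm, ← hz] at hg
    have hi : ‖ev (Rps A P) z‖ ≤ W / ‖1 - z‖ := by
      rw [le_div_iff₀ he0, mul_comm]; exact hg
    calc (k.factorial * ‖ev (Rps A P) z‖) ^ (2 / k : ℝ)
        ≤ ((k.factorial * W) / ‖1 - z‖) ^ (2 / k : ℝ) := by
          apply Real.rpow_le_rpow (by positivity) _ hp0.le
          rw [mul_div_assoc]
          gcongr
      _ = (k.factorial * W) ^ (2 / k : ℝ) * ‖1 - z‖ ^ (-(2 / k) : ℝ) := by
          rw [Real.div_rpow (by positivity) he0.le, Real.rpow_neg he0.le, div_eq_mul_inv]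
      _ = (k.factorial * W) ^ (2 / k : ℝ) * (‖1 - z‖ ^ (-δ) * ‖1 - z‖ ^ (-(2 / k - δ))) := by
          rw [← Real.rpow_add he0]
          congr 2
          ring
      _ ≤ (k.factorial * W) ^ (2 / k : ℝ) * ((1 - r) ^ (-δ) * ‖1 - z‖ ^ (-(2 / k - δ))) := by
          have hj : ‖1 - z‖ ^ (-δ) ≤ (1 - r) ^ (-δ) := Real.rpow_le_rpow_of_nonpos h1r he (by linarith)
          gcongr
      _ = _ := by ring
  have hint : ENNReal.ofReal M ≤ ENNReal.ofReal ((k.factorial * W) ^ (2 / k : ℝ) * (1 - r) ^ (-δ)) * C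
      + ∑ σ ∈ E, ENNReal.ofReal M ^ (((k : ℝ) - 1) / k) := by
    rw [← hf]
    refine (lintegral_mono hpt).trans ?_
    rw [lintegral_add_left, lintegral_const_mul' _ _ ENNReal.ofReal_ne_top, lintegral_finsetSum]
    · apply add_le_add
      · exact mul_le_mul' le_rfl (hker r h0 h3)
      · apply Finset.sum_le_sum
        intro σ hσ
        obtain ⟨ι, _, e, he, hF, hcard⟩ := Fs_eq A σ
        have hc := hcard (Finset.ne_of_mem_erase hσ)
        rw [hF]
        refine (lint_prod A (by omega) e he hc.le h0 h3).trans ?_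
        rw [← hMdef, hf]
        apply ENNReal.rpow_le_rpow_of_exponent_le
        · rw [← ENNReal.ofReal_one]
          exact ENNReal.ofReal_le_ofReal hM
        · have : (Fintype.card ι : ℝ) ≤ k - 1 := by
            have : Fintype.card ι + 1 ≤ k := hc
            have h5 : ((Fintype.card ι : ℝ) + 1) ≤ k := by exact_mod_cast this
            linarith
          gcongr
    · intro σ _
      exact (ev_cont (conv_Fs A σ) h0 h3).measurable.enorm.pow_const _
    · apply Measurable.const_mul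
      apply ENNReal.measurable_ofReal.comp
      apply Measurable.pow_const
      exact (continuous_const.sub (continuous_circleMap 0 r)).norm.measurable
  have hM0 : 0 ≤ M := by linarith
  rw [Finset.sum_const, nsmul_eq_mul, ENNReal.ofReal_rpow_of_nonneg hM0 (by
      apply div_nonneg _ hk0.le; linarith), ← ENNReal.ofReal_toReal hC, ← ENNReal.ofReal_mul (by positivity),
    ← ENNReal.ofReal_natCast, ← ENNReal.ofReal_mul (by positivity), ← ENNReal.ofReal_add (by positivity)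
      (by positivity), ENNReal.ofReal_le_ofReal_iff (by positivity)] at hint
  refine hint.trans ?_
  apply add_le_add
  · apply le_of_eq; ring
  · apply mul_le_mul_of_nonneg_right _ (by positivity)
    have : E.card ≤ k.factorial := by
      refine (Finset.card_le_univ _).trans ?_
      rw [Fintype.card_perm, Fintype.card_fin]
    exact_mod_cast this

end Pool.Agent.H303R3
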