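import Pool.Agent.H303R3.KH

set_option autoImplicit false
open Filter Topology MeasureTheory
open scoped ENNReal

namespace Pool.Agent.H303R3

variable {k : ℕ}

lemma fr_mono (A : Set ℕ) {p q : ℝ} (h0 : 0 ≤ p) (h1 : p ≤ q) (h2 : q < 1) : fr A p ≤ fr A q := by
  classical
  unfold fr
  apply Summable.tsum_le_tsum _ (summable_fr A h0 (h1.trans_lt h2)) (summable_fr A (h0.trans h1) h2)
  intro n
  split_ifs
  · simpa using pow_le_pow_left₀ h0 h1 n
  · simp

lemma fr_le_geo (A : Set ℕ) {q : ℝ} (h0 : 0 ≤ q) (h1 : q < 1) : fr A q ≤ (1 - q)⁻¹ := by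
  classical
  rw [← tsum_geometric_of_lt_one h0 h1]
  unfold fr
  apply Summable.tsum_le_tsum _ (summable_fr A h0 h1) (summable_geometric_of_lt_one h0 h1)
  intro n
  split_ifs
  · rw [one_mul]
  · rw [zero_mul]; positivity

/-- counting function including zero -/
noncomputable def cnt (A : Set ℕ) (n : ℕ) : ℝ :=
  ∑ m ∈ Finset.range (n + 1), (open Classical in if m ∈ A then (1 : ℝ) else 0)

lemma fr_abel (A : Set ℕ) {q : ℝ} (h0 : 0 ≤ q) (h1 : q < 1) :
    (Summable fun n => cnt A n * q ^ n) ∧ fr A q = (1 - q) * ∑' n, cnt A n * q ^ n := by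
  classical
  have hz : ‖(q : ℂ)‖ < 1 := by rwa [Complex.norm_real, Real.norm_of_nonneg h0]
  have hcoef : ∀ n, PowerSeries.coeff n (ind A * geo) = (cnt A n : ℂ) := by
    intro n
    rw [PowerSeries.coeff_mul]
    unfold ind geo cnt
    simp only [PowerSeries.coeff_mk, mul_one]
    rw [Finset.Nat.sum_antidiagonal_eq_sum_range_succ (fun i _ => if i ∈ A then (1 : ℂ) else 0)]
    push_cast
    refine Finset.sum_congr rfl fun m _ => ?_
    split_ifs <;> simp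
  have hcnt0 : ∀ n, 0 ≤ cnt A n := by
    intro n
    unfold cnt
    exact Finset.sum_nonneg fun m _ => by split_ifs <;> norm_num
  have hc : Conv (ind A * geo) := (conv_ind A).mul conv_geo
  have hs : Summable fun n => cnt A n * q ^ n := by
    have := hc q h0 h1
    refine this.congr fun n => ?_
    rw [hcoef, Complex.norm_real, Real.norm_of_nonneg (hcnt0 n)]
  refine ⟨hs, ?_⟩
  have h2 := ev_mul (conv_ind A) conv_geo hz
  rw [ev_geo hz, ev_ind_real] at h2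
  have h3 : ev (ind A * geo) (q : ℂ) = ((∑' n, cnt A n * q ^ n : ℝ) : ℂ) := by
    unfold ev
    rw [Complex.ofReal_tsum]
    refine tsum_congr fun n => ?_
    rw [hcoef]
    push_cast
    rfl
  rw [h3] at h2
  have h4 : (∑' n, cnt A n * q ^ n) = fr A q * (1 - q)⁻¹ := by exact_mod_cast h2
  rw [h4]
  have : (1 - q) ≠ 0 := by linarith
  field_simp

lemma fr_growth (A : Set ℕ) {K β : ℝ} (hK : 0 ≤ K) (hβ0 : 0 ≤ β) (hβ1 : β ≤ 1)
    (h : ∀ n, cnt A n ≤ K * ((n : ℝ) + 1) ^ β) {q : ℝ} (h0 : 0 ≤ q) (h1 : q < 1) :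
    fr A q ≤ 2 * K * (1 - q) ^ (-β) := by
  obtain ⟨hs, he⟩ := fr_abel A h0 h1
  have h1q : 0 < 1 - q := by linarith
  set T := (1 - q)⁻¹ with hT
  have hT0 : 0 < T := inv_pos.mpr h1q
  have hmaj : ∀ n : ℕ, ((n : ℝ) + 1) ^ β ≤ T ^ β + (n + 1) * T ^ (β - 1) := by
    intro n
    have hn : (0 : ℝ) < n + 1 := by positivity
    rcases le_total ((n : ℝ) + 1) T with h2 | h2
    · have h3 : ((n : ℝ) + 1) ^ β ≤ T ^ β := Real.rpow_le_rpow hn.le h2 hβ0
      have h4 : 0 ≤ ((n : ℝ) + 1) * T ^ (β - 1) := by positivity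
      linarith
    · have h3 : ((n : ℝ) + 1) ^ (β - 1) ≤ T ^ (β - 1) := Real.rpow_le_rpow_of_nonpos hT0 h2 (by linarith)
      have h4 : ((n : ℝ) + 1) ^ β = (n + 1) * ((n : ℝ) + 1) ^ (β - 1) := by
        rw [Real.rpow_sub hn, Real.rpow_one]; field_simp
      have h5 : 0 ≤ T ^ β := by positivity
      rw [h4]
      have : ((n : ℝ) + 1) * ((n : ℝ) + 1) ^ (β - 1) ≤ (n + 1) * T ^ (β - 1) := by gcongr
      linarith
  have hg := hasSum_geometric_of_lt_one h0 h1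
  have hg1 : HasSum (fun n : ℕ => ((n : ℝ) + 1) * q ^ n) (T ^ 2) := by
    have h2 := hasSum_coe_mul_geometric_of_norm_lt_one (r := q) (by rwa [Real.norm_of_nonneg h0])
    have h3 := h2.add hg
    have h4 : q / (1 - q) ^ 2 + (1 - q)⁻¹ = T ^ 2 := by
      rw [hT]; field_simp; ring
    rw [h4] at h3
    refine h3.congr_fun ?_ |> fun x => x
    intro n; ring
  have hle : ∑' n, cnt A n * q ^ n ≤ 2 * K * T ^ β * T := by
    have h2 : HasSum (fun n : ℕ => K * (T ^ β * q ^ n + T ^ (β - 1) * (((n : ℝ) + 1) * q ^ n)))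
        (K * (T ^ β * T + T ^ (β - 1) * T ^ 2)) :=
      (((hg.mul_left _).add (hg1.mul_left _)).mul_left _)
    have h3 : K * (T ^ β * T + T ^ (β - 1) * T ^ 2) = 2 * K * T ^ β * T := by
      have : T ^ (β - 1) * T ^ 2 = T ^ β * T := by
        rw [Real.rpow_sub hT0, Real.rpow_one]; field_simp
      rw [this]; ring
    rw [← h3, ← h2.tsum_eq]
    apply Summable.tsum_le_tsum _ hs h2.summable
    intro n
    have h4 : K * (T ^ β * q ^ n + T ^ (β - 1) * (((n : ℝ) + 1) * q ^ n))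
        = K * (T ^ β + (n + 1) * T ^ (β - 1)) * q ^ n := by ring
    rw [h4]
    apply mul_le_mul_of_nonneg_right _ (by positivity)
    exact (h n).trans (mul_le_mul_of_nonneg_left (hmaj n) hK)
  rw [he]
  have h5 : (1 - q) ^ (-β) = T ^ β := by
    rw [hT, Real.inv_rpow h1q.le, Real.rpow_neg h1q.le]
  rw [h5]
  calc (1 - q) * ∑' n, cnt A n * q ^ n ≤ (1 - q) * (2 * K * T ^ β * T) := by gcongr
    _ = 2 * K * T ^ β := by rw [hT]; field_simp

lemma Rr_ge (A : Set ℕ) (P : (Fin k → ℕ) → Prop) {n1 : ℕ} (h : ∀ n, n1 ≤ n → 1 ≤ Rn A P n) {q : ℝ}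
    (h0 : 0 ≤ q) (h1 : q < 1) : q ^ n1 * (1 - q)⁻¹ ≤ Rr A P q := by
  have hs := summable_Rr A P h0 h1
  unfold Rr
  rw [← hs.sum_add_tsum_nat_add n1, ← tsum_geometric_of_lt_one h0 h1, ← tsum_mul_left]
  have h2 : 0 ≤ ∑ i ∈ Finset.range n1, (Rn A P i : ℝ) * q ^ i := Finset.sum_nonneg fun i _ => by positivity
  have h3 : ∑' n, q ^ n1 * q ^ n ≤ ∑' n, (Rn A P (n + n1) : ℝ) * q ^ (n + n1) := by
    apply Summable.tsum_le_tsum _ ((summable_geometric_of_lt_one h0 h1).mul_left _)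
      ((summable_nat_add_iff n1).mpr hs)
    intro n
    rw [pow_add, mul_comm (q ^ n1)]
    have h4 : (1 : ℝ) ≤ Rn A P (n + n1) := by exact_mod_cast h (n + n1) (by omega)
    have h5 : 0 ≤ q ^ n * q ^ n1 := by positivity
    nlinarith
  linarith

/-- the core contradiction -/
theorem no_slow (hk : 2 ≤ k) (A : Set ℕ) (P : (Fin k → ℕ) → Prop) (χ : Equiv.Perm (Fin k) → ℤ)
    (h : ∀ a, ((open Classical in Finset.card {τ : Equiv.Perm (Fin k) | P (a ∘ τ)} : ℕ) : ℤ) = ∑ σ ∈ stab a, χ σ)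
    (h1 : 1 ≤ χ 1) (h2 : ∀ σ, σ ≠ 1 → |χ σ| ≤ 1)
    (hmono : ∃ n₀, ∀ n, n₀ ≤ n → Rn A P n ≤ Rn A P (n + 1)) (hpos : ∃ n1, ∀ n, n1 ≤ n → 1 ≤ Rn A P n)
    {ε : ℝ} (hε : 0 < ε) (hε2 : ε ≤ 2 / k) {K : ℝ} (hK : 0 ≤ K)
    (hA : ∀ n, cnt A n ≤ K * ((n : ℝ) + 1) ^ (2 / k - ε : ℝ)) : False := by
  have hk0 : (0 : ℝ) < k := by exact_mod_cast (by omega : 0 < k)
  have hk2 : (2 : ℝ) ≤ k := by exact_mod_cast hk
  have hp0 : (0 : ℝ) < 2 / k := by positivity
  have hp1 : (2 / k : ℝ) ≤ 1 := by rw [div_le_one hk0]; exact hk2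
  obtain ⟨n1, hn1⟩ := hpos
  obtain ⟨Cs, C0, hCs, hC0, hmain⟩ := main_ineq hk A P χ h h1 h2 hmono (δ := ε / 2) (by linarith) (by linarith)
  set β : ℝ := 2 / k - ε with hβ
  have hgrow := fun (q : ℝ) (h0 : 0 ≤ q) (h1 : q < 1) =>
    fr_growth A hK (β := β) (by linarith) (by linarith) hA h0 h1
  set K1 : ℝ := 1 + C0 * 2 ^ n1 with hK1
  have hK10 : 0 < K1 := by positivity
  set K4 : ℝ := 2 * Cs * (k.factorial * K1) ^ (2 / k : ℝ) * (2 * K) with hK4
  have hK40 : 0 ≤ K4 := by positivity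
  have hfactpos : (0 : ℝ) < k.factorial := by exact_mod_cast Nat.factorial_pos k
  set M0 : ℝ := (2 * k.factorial) ^ k with hM0
  have hM01 : 1 ≤ M0 := by
    rw [hM0]
    apply one_le_pow₀
    have : (1 : ℝ) ≤ k.factorial := by exact_mod_cast Nat.factorial_pos k
    linarith
  -- step A
  have hA1 : ∀ r : ℝ, 1 / 2 ≤ r → r < 1 → M0 ≤ fr A (r ^ 2) →
      fr A (r ^ 2) ≤ K4 * (1 - r) ^ (ε / 2) * fr A r := by
    intro r hr0 hr1 hM
    have h0 : 0 ≤ r := by linarith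
    have h1r : 0 < 1 - r := by linarith
    set M := fr A (r ^ 2) with hMd
    have hM1 : 1 ≤ M := hM01.trans hM
    have hMpos : 0 < M := by linarith
    have h3 := hmain r h0 hr1 hM1
    have hfr0 : 0 ≤ fr A r := fr_nonneg A h0
    have hW : C0 + (1 - r) * Rr A P r ≤ K1 * ((1 - r) * fr A r ^ k) := by
      have h4 := Rr_ge A P hn1 h0 hr1
      have h5 := Rr_le A P h0 hr1
      have h6 : r ^ n1 ≤ (1 - r) * Rr A P r := by
        calc r ^ n1 = (1 - r) * (r ^ n1 * (1 - r)⁻¹) := by field_simp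
          _ ≤ _ := by gcongr
      have h7 : (1 / 2 : ℝ) ^ n1 ≤ r ^ n1 := pow_le_pow_left₀ (by norm_num) hr0 n1
      have h8 : 1 ≤ 2 ^ n1 * ((1 - r) * Rr A P r) := by
        have h9 : (2 : ℝ) ^ n1 * (1 / 2) ^ n1 = 1 := by
          rw [← mul_pow]; norm_num
        have h10 : (1 / 2 : ℝ) ^ n1 ≤ (1 - r) * Rr A P r := h7.trans h6
        calc (1 : ℝ) = 2 ^ n1 * (1 / 2) ^ n1 := h9.symm
          _ ≤ _ := by gcongr
      have h11 : C0 ≤ C0 * 2 ^ n1 * ((1 - r) * Rr A P r) := by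
        calc C0 = C0 * 1 := (mul_one _).symm
          _ ≤ C0 * (2 ^ n1 * ((1 - r) * Rr A P r)) := by gcongr
          _ = _ := by ring
      have h12 : (1 - r) * Rr A P r ≤ (1 - r) * fr A r ^ k := by gcongr
      calc C0 + (1 - r) * Rr A P r ≤ K1 * ((1 - r) * Rr A P r) := by rw [hK1]; linarith
        _ ≤ _ := by gcongr
    have hfac : k.factorial * M ^ (((k : ℝ) - 1) / k) ≤ M / 2 := by
      have h4 : 2 * (k.factorial : ℝ) ≤ M ^ (1 / k : ℝ) := by
        have h5 : (2 * (k.factorial : ℝ)) = M0 ^ (1 / k : ℝ) := by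
          rw [hM0, ← Real.rpow_natCast, ← Real.rpow_mul (by positivity)]
          rw [mul_one_div_cancel hk0.ne', Real.rpow_one]
        rw [h5]
        exact Real.rpow_le_rpow (by positivity) hM (by positivity)
      have h6 : M ^ (((k : ℝ) - 1) / k) * M ^ (1 / k : ℝ) = M := by
        rw [← Real.rpow_add hMpos]
        have : (((k : ℝ) - 1) / k + 1 / k) = 1 := by field_simp; ring
        rw [this, Real.rpow_one]
      have h7 : 0 ≤ M ^ (((k : ℝ) - 1) / k) := by positivity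
      nlinarith
    have h4 : M ≤ 2 * (Cs * (k.factorial * (C0 + (1 - r) * Rr A P r)) ^ (2 / k : ℝ) * (1 - r) ^ (-(ε / 2))) := by
      linarith
    have hRr0 : 0 ≤ Rr A P r := by
      unfold Rr
      exact tsum_nonneg fun n => by positivity
    have h5 : (k.factorial * (C0 + (1 - r) * Rr A P r)) ^ (2 / k : ℝ)
        ≤ (k.factorial * K1) ^ (2 / k : ℝ) * ((1 - r) ^ (2 / k : ℝ) * fr A r ^ 2) := by
      calc (k.factorial * (C0 + (1 - r) * Rr A P r)) ^ (2 / k : ℝ)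
          ≤ ((k.factorial * K1) * ((1 - r) * fr A r ^ k)) ^ (2 / k : ℝ) := by
            apply Real.rpow_le_rpow (by positivity) _ hp0.le
            calc k.factorial * (C0 + (1 - r) * Rr A P r) ≤ k.factorial * (K1 * ((1 - r) * fr A r ^ k)) := by gcongr
              _ = _ := by ring
        _ = _ := by
            rw [Real.mul_rpow (by positivity) (by positivity), Real.mul_rpow h1r.le (by positivity)]
            congr 2
            rw [← Real.rpow_natCast, ← Real.rpow_mul hfr0, ← Real.rpow_natCast]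
            congr 1
            push_cast
            field_simp
    have h6 := hgrow r h0 hr1
    calc M ≤ 2 * (Cs * (k.factorial * (C0 + (1 - r) * Rr A P r)) ^ (2 / k : ℝ) * (1 - r) ^ (-(ε / 2))) := h4
      _ ≤ 2 * (Cs * ((k.factorial * K1) ^ (2 / k : ℝ) * ((1 - r) ^ (2 / k : ℝ) * fr A r ^ 2)) * (1 - r) ^ (-(ε / 2))) := by
          gcongr
      _ = 2 * Cs * (k.factorial * K1) ^ (2 / k : ℝ) * ((1 - r) ^ (2 / k : ℝ) * (1 - r) ^ (-(ε / 2))) * fr A r * fr A r := by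
          ring
      _ ≤ 2 * Cs * (k.factorial * K1) ^ (2 / k : ℝ) * ((1 - r) ^ (2 / k : ℝ) * (1 - r) ^ (-(ε / 2))) * fr A r
            * (2 * K * (1 - r) ^ (-β)) := by gcongr
      _ = K4 * ((1 - r) ^ (2 / k : ℝ) * (1 - r) ^ (-(ε / 2)) * (1 - r) ^ (-β)) * fr A r := by
          rw [hK4]; ring
      _ = K4 * (1 - r) ^ (ε / 2) * fr A r := by
          rw [← Real.rpow_add h1r, ← Real.rpow_add h1r]
          congr 3
          rw [hβ]; ring
  -- eventually fr A (r^2) is large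
  have hlarge : ∀ᶠ r in 𝓝[<] (1 : ℝ), M0 ≤ fr A (r ^ 2) := by
    have hlim : Tendsto (fun r : ℝ => (r ^ 2) ^ n1 - M0 ^ k * (1 - r ^ 2)) (𝓝[<] 1)
        (𝓝 ((1 ^ 2) ^ n1 - M0 ^ k * (1 - 1 ^ 2))) := by
      apply Tendsto.mono_left _ nhdsWithin_le_nhds
      have hid : Tendsto (fun r : ℝ => r) (𝓝 1) (𝓝 1) := tendsto_id
      exact ((hid.pow 2).pow n1).sub ((tendsto_const_nhds.sub (hid.pow 2)).const_mul _)
    have hpos' : (0 : ℝ) < (1 ^ 2) ^ n1 - M0 ^ k * (1 - 1 ^ 2) := by norm_num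
    have h3 := hlim.eventually_const_lt hpos'
    have h4 : Set.Ioo (0 : ℝ) 1 ∈ 𝓝[<] (1 : ℝ) := Ioo_mem_nhdsLT (by norm_num)
    filter_upwards [h3, h4] with r hr3 hr4
    have hq0 : 0 ≤ r ^ 2 := by positivity
    have hq1 : r ^ 2 < 1 := by nlinarith [hr4.1, hr4.2]
    have h5 := (Rr_ge A P hn1 hq0 hq1).trans (Rr_le A P hq0 hq1)
    have h6 : M0 ^ k ≤ fr A (r ^ 2) ^ k := by
      refine le_trans ?_ h5
      rw [← div_eq_mul_inv, le_div_iff₀ (by linarith)]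
      linarith
    by_contra hcon
    push Not at hcon
    exact absurd h6 (not_le.mpr (pow_lt_pow_left₀ hcon (fr_nonneg A hq0) (by omega)))
  have hsmall : ∀ᶠ r in 𝓝[<] (1 : ℝ), K4 * (1 - r) ^ (ε / 2) < 1 / 4 := by
    have hlim : Tendsto (fun r : ℝ => K4 * (1 - r) ^ (ε / 2)) (𝓝[<] 1) (𝓝 (K4 * (1 - 1) ^ (ε / 2))) := by
      apply Tendsto.mono_left _ nhdsWithin_le_nhds
      apply Tendsto.const_mul
      have : Tendsto (fun r : ℝ => 1 - r) (𝓝 1) (𝓝 (1 - 1)) := tendsto_const_nhds.sub tendsto_id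
      exact this.rpow_const (Or.inr (by linarith))
    apply hlim.eventually_lt_const
    rw [sub_self, Real.zero_rpow (by linarith), mul_zero]
    norm_num
  have hhalf : ∀ᶠ r in 𝓝[<] (1 : ℝ), 1 / 2 ≤ r ∧ r < 1 := by
    have h4 : Set.Ioo (1 / 2 : ℝ) 1 ∈ 𝓝[<] (1 : ℝ) := Ioo_mem_nhdsLT (by norm_num)
    filter_upwards [h4] with r hr
    exact ⟨hr.1.le, hr.2⟩
  have hall : ∀ᶠ r in 𝓝[<] (1 : ℝ), 4 * fr A (r ^ 2) ≤ fr A r ∧ 1 ≤ fr A (r ^ 2) := by
    filter_upwards [hlarge, hsmall, hhalf] with r ha hb hc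
    refine ⟨?_, hM01.trans ha⟩
    have h3 := hA1 r hc.1 hc.2 ha
    have h4 : 0 ≤ fr A r := fr_nonneg A (by linarith [hc.1])
    nlinarith
  -- dyadic sequence
  have hseq : Tendsto (fun j : ℕ => 1 - (1 / 2 : ℝ) ^ j) atTop (𝓝[<] 1) := by
    rw [tendsto_nhdsWithin_iff]
    constructor
    · have : Tendsto (fun j : ℕ => (1 / 2 : ℝ) ^ j) atTop (𝓝 0) :=
        tendsto_pow_atTop_nhds_zero_of_lt_one (by norm_num) (by norm_num)
      simpa using this.const_sub 1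
    · filter_upwards with j
      simp
  obtain ⟨J, hJ⟩ := eventually_atTop.mp (hseq.eventually hall)
  set u : ℕ → ℝ := fun j => fr A (1 - (1 / 2 : ℝ) ^ j) with hu
  have hstep : ∀ j, J ≤ j + 1 → 4 * u j ≤ u (j + 1) := by
    intro j hj
    have h3 := (hJ (j + 1) hj).1
    refine le_trans ?_ h3
    apply mul_le_mul_of_nonneg_left _ (by norm_num)
    have hp : (0 : ℝ) < (1 / 2) ^ j := by positivity
    have hp1 : ((1 / 2 : ℝ)) ^ j ≤ 1 := pow_le_one₀ (by norm_num) (by norm_num)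
    have h7 : ((1 / 2 : ℝ)) ^ (j + 1) = (1 / 2) ^ j / 2 := by rw [pow_succ]; ring
    rw [h7]
    apply fr_mono
    · linarith
    · nlinarith
    · nlinarith
  have hbase : 1 ≤ u J := by
    have h3 := (hJ J le_rfl)
    have h4 : fr A ((1 - (1 / 2 : ℝ) ^ J) ^ 2) ≥ 1 := h3.2
    have h5 : 4 * fr A ((1 - (1 / 2 : ℝ) ^ J) ^ 2) ≤ u J := h3.1
    linarith
  have hind : ∀ i, (4 : ℝ) ^ i ≤ u (J + i) := by
    intro i
    induction i with
    | zero => simpa using hbase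
    | succ i ih =>
      have := hstep (J + i) (by omega)
      rw [pow_succ, ← add_assoc]
      linarith
  have hupper : ∀ j, u j ≤ 2 ^ j := by
    intro j
    have hp : (0 : ℝ) < (1 / 2) ^ j := by positivity
    have hp1 : ((1 / 2 : ℝ)) ^ j ≤ 1 := pow_le_one₀ (by norm_num) (by norm_num)
    have h3 := fr_le_geo A (q := 1 - (1 / 2 : ℝ) ^ j) (by linarith) (by linarith)
    refine h3.trans (le_of_eq ?_)
    rw [sub_sub_cancel]
    simp
  have h3 := (hind (J + 1)).trans (hupper (J + (J + 1)))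
  have h4 : (4 : ℝ) ^ (J + 1) = 2 ^ (J + (J + 1)) * 2 := by
    rw [show (4 : ℝ) = 2 ^ 2 by norm_num, ← pow_mul, ← pow_succ]
    congr 1
    ring
  rw [h4] at h3
  have h5 : (0 : ℝ) < 2 ^ (J + (J + 1)) := by positivity
  linarith

end Pool.Agent.H303R3
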