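import Pool.Agent.H303R3.Ev

set_option autoImplicit false
open Filter Topology MeasureTheory
open scoped ENNReal

namespace Pool.Agent.H303R3

lemma norm_one_sub_ge {r : ℝ} (h0 : 0 ≤ r) (θ : ℝ) :
    Real.sin (θ / 2) ≤ ‖1 - circleMap 0 r θ‖ := by
  apply le_of_sq_le_sq _ (norm_nonneg _)
  rw [← Complex.normSq_eq_norm_sq, circleMap_zero, Complex.normSq_apply]
  have h1 : ((r : ℂ) * Complex.exp (θ * Complex.I)).re = r * Real.cos θ := by
    rw [Complex.re_ofReal_mul, Complex.exp_ofReal_mul_I_re]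
  have h3 : ((r : ℂ) * Complex.exp (θ * Complex.I)).im = r * Real.sin θ := by
    rw [Complex.im_ofReal_mul, Complex.exp_ofReal_mul_I_im]
  rw [Complex.sub_re, Complex.sub_im, h1, h3]
  simp only [Complex.one_re, Complex.one_im]
  have h4 : Real.sin (θ / 2) ^ 2 = (1 - Real.cos θ) / 2 := by
    have h := Real.cos_two_mul (θ / 2)
    rw [mul_div_cancel₀ θ (by norm_num : (2 : ℝ) ≠ 0)] at h
    have h5 := Real.sin_sq_add_cos_sq (θ / 2)
    linarith
  have h5 := Real.sin_sq_add_cos_sq θ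
  have h6 := Real.cos_le_one θ
  have h7 := Real.neg_one_le_cos θ
  rw [h4]
  have h8 : (1 - r * Real.cos θ) * (1 - r * Real.cos θ) + (0 - r * Real.sin θ) * (0 - r * Real.sin θ)
      = 1 - 2 * r * Real.cos θ + r ^ 2 := by
    have : Real.sin θ ^ 2 = 1 - Real.cos θ ^ 2 := by linarith
    calc _ = 1 - 2 * r * Real.cos θ + r ^ 2 * (Real.cos θ ^ 2 + Real.sin θ ^ 2) := by ring
      _ = _ := by rw [this]; ring
  rw [h8]
  by_cases hc : 0 ≤ Real.cos θ
  · nlinarith [sq_nonneg (r - Real.cos θ), mul_nonneg (sub_nonneg.mpr h6) hc]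
  · push Not at hc
    nlinarith [mul_nonneg h0 (neg_nonneg.mpr hc.le), sq_nonneg r]

lemma sin_half_ge {θ : ℝ} (h0 : 0 < θ) (h1 : θ < 2 * Real.pi) :
    min θ (2 * Real.pi - θ) / Real.pi ≤ Real.sin (θ / 2) := by
  have hpi := Real.pi_pos
  rcases le_total θ Real.pi with h | h
  · have h2 := Real.mul_le_sin (x := θ / 2) (by linarith) (by linarith)
    refine le_trans ?_ h2
    have : min θ (2 * Real.pi - θ) ≤ θ := min_le_left _ _
    calc min θ (2 * Real.pi - θ) / Real.pi ≤ θ / Real.pi := by gcongr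
      _ = 2 / Real.pi * (θ / 2) := by ring
  · have h2 := Real.mul_le_sin (x := Real.pi - θ / 2) (by linarith) (by linarith)
    rw [Real.sin_pi_sub] at h2
    refine le_trans ?_ h2
    have : min θ (2 * Real.pi - θ) ≤ 2 * Real.pi - θ := min_le_right _ _
    calc min θ (2 * Real.pi - θ) / Real.pi ≤ (2 * Real.pi - θ) / Real.pi := by gcongr
      _ = 2 / Real.pi * (Real.pi - θ / 2) := by ring

/-- uniform bound of the kernel `|1 - z|^(-s)` in mean, `s < 1` -/
lemma kernel_bound {s : ℝ} (hs0 : 0 ≤ s) (hs1 : s < 1) :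
    ∃ C : ℝ≥0∞, C ≠ ⊤ ∧ ∀ r : ℝ, 0 ≤ r → r < 1 →
      ∫⁻ θ, ENNReal.ofReal (‖1 - circleMap 0 r θ‖ ^ (-s)) ∂mu ≤ C := by
  have hpi := Real.pi_pos
  set g : ℝ → ℝ := fun θ => Real.pi ^ s * (θ ^ (-s) + (2 * Real.pi - θ) ^ (-s)) with hg
  have hint : IntervalIntegrable g volume 0 (2 * Real.pi) := by
    have h1 : IntervalIntegrable (fun θ : ℝ => θ ^ (-s)) volume 0 (2 * Real.pi) :=
      intervalIntegral.intervalIntegrable_rpow' (by linarith)
    have h2 : IntervalIntegrable (fun θ : ℝ => (2 * Real.pi - θ) ^ (-s)) volume 0 (2 * Real.pi) := by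
      have := (h1.comp_sub_left (2 * Real.pi)).symm
      simpa using this
    exact (h1.add h2).const_mul _
  have hint2 : IntegrableOn g (Set.Ioc 0 (2 * Real.pi)) volume := by
    rwa [intervalIntegrable_iff_integrableOn_Ioc_of_le (by positivity)] at hint
  refine ⟨∫⁻ θ, ENNReal.ofReal (g θ) ∂mu, ?_, ?_⟩
  · unfold mu
    rw [lintegral_smul_measure]
    have h1 : ∫⁻ θ in Set.Ioc 0 (2 * Real.pi), ENNReal.ofReal (g θ) ≠ ⊤ := by
      refine (lt_of_le_of_lt (lintegral_mono fun θ => ?_) hint2.2).ne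
      rw [← ofReal_norm]
      exact ENNReal.ofReal_le_ofReal (Real.le_norm_self _)
    refine ENNReal.mul_ne_top ?_ h1
    simp [hpi]
  · intro r h0 h1
    unfold mu
    rw [lintegral_smul_measure, lintegral_smul_measure]
    simp only [smul_eq_mul]
    apply mul_le_mul' le_rfl
    have h3 : ∀ᵐ θ ∂(volume.restrict (Set.Ioc 0 (2 * Real.pi))), θ ≠ 2 * Real.pi := by
      apply ae_restrict_of_ae
      exact Measure.ae_ne volume (2 * Real.pi)
    have h4 : ∀ᵐ θ ∂(volume.restrict (Set.Ioc 0 (2 * Real.pi))), θ ∈ Set.Ioc 0 (2 * Real.pi) :=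
      ae_restrict_mem measurableSet_Ioc
    apply lintegral_mono_ae
    filter_upwards [h3, h4] with θ h5 h6
    apply ENNReal.ofReal_le_ofReal
    have h7 : 0 < θ := h6.1
    have h8 : θ < 2 * Real.pi := lt_of_le_of_ne h6.2 h5
    have h9 : 0 < min θ (2 * Real.pi - θ) := lt_min h7 (by linarith)
    have h10 := sin_half_ge h7 h8
    have h11 : 0 < min θ (2 * Real.pi - θ) / Real.pi := by positivity
    have h12 := norm_one_sub_ge h0 θ
    have h13 : ‖1 - circleMap 0 r θ‖ ^ (-s) ≤ (min θ (2 * Real.pi - θ) / Real.pi) ^ (-s) :=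
      Real.rpow_le_rpow_of_nonpos h11 (h10.trans h12) (by linarith)
    refine h13.trans ?_
    rw [Real.div_rpow h9.le hpi.le, Real.rpow_neg hpi.le, div_inv_eq_mul, mul_comm]
    simp only [hg]
    gcongr
    have ha : 0 ≤ θ ^ (-s) := Real.rpow_nonneg h7.le _
    have hb : 0 ≤ (2 * Real.pi - θ) ^ (-s) := Real.rpow_nonneg (by linarith) _
    rcases min_choice θ (2 * Real.pi - θ) with h | h <;> rw [h] <;> linarith

end Pool.Agent.H303R3
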