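import Pool.Agent.H303R3.Ker

set_option autoImplicit false
open Filter Topology MeasureTheory
open scoped ENNReal

namespace Pool.Agent.H303R3

open Classical in
/-- indicator power series -/
noncomputable def ind (A : Set ℕ) : PowerSeries ℂ := PowerSeries.mk fun n => if n ∈ A then 1 else 0

/-- geometric series -/
noncomputable def geo : PowerSeries ℂ := PowerSeries.mk fun _ => 1

lemma conv_ind (A : Set ℕ) : Conv (ind A) := by
  refine Conv.of_bdd (B := 1) fun n => ?_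
  unfold ind
  rw [PowerSeries.coeff_mk]
  split_ifs <;> simp

lemma conv_geo : Conv geo := by
  refine Conv.of_bdd (B := 1) fun n => ?_
  unfold geo
  rw [PowerSeries.coeff_mk]
  simp

lemma ev_geo {z : ℂ} (hz : ‖z‖ < 1) : ev geo z = (1 - z)⁻¹ := by
  unfold ev geo
  simp only [PowerSeries.coeff_mk, one_mul]
  exact tsum_geometric_of_norm_lt_one hz

/-- number of ordered representations as a sum of two elements -/
noncomputable def rep (A : Set ℕ) (n : ℕ) : ℕ :=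
  Set.ncard {p : ℕ × ℕ | p.1 ∈ A ∧ p.2 ∈ A ∧ p.1 + p.2 = n}

lemma coeff_ind_sq (A : Set ℕ) (n : ℕ) :
    PowerSeries.coeff n (ind A * ind A) = (rep A n : ℂ) := by
  classical
  rw [PowerSeries.coeff_mul]
  unfold ind rep
  simp only [PowerSeries.coeff_mk]
  have h : {p : ℕ × ℕ | p.1 ∈ A ∧ p.2 ∈ A ∧ p.1 + p.2 = n}
      = (((Finset.HasAntidiagonal.antidiagonal n).filter fun p => p.1 ∈ A ∧ p.2 ∈ A : Finset (ℕ × ℕ)) :
        Set (ℕ × ℕ)) := by
    ext p
    simp only [Set.mem_setOf_eq, Finset.coe_filter, Finset.HasAntidiagonal.mem_antidiagonal]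
    tauto
  rw [h, Set.ncard_coe_finset, Finset.card_filter]
  push_cast
  refine Finset.sum_congr rfl fun p _ => ?_
  by_cases h1 : p.1 ∈ A <;> by_cases h2 : p.2 ∈ A <;> simp [h1, h2]

lemma rep_le (A : Set ℕ) (n : ℕ) : rep A n ≤ n + 1 := by
  have h : {p : ℕ × ℕ | p.1 ∈ A ∧ p.2 ∈ A ∧ p.1 + p.2 = n}
      ⊆ ((Finset.HasAntidiagonal.antidiagonal n : Finset (ℕ × ℕ)) : Set (ℕ × ℕ)) := by
    intro p hp
    simp only [Finset.mem_coe, Finset.HasAntidiagonal.mem_antidiagonal]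
    exact hp.2.2
  refine (Set.ncard_le_ncard h (Finset.finite_toSet _)).trans ?_
  rw [Set.ncard_coe_finset, Finset.Nat.card_antidiagonal]

lemma lint_le_sqrt {g : ℝ → ℝ≥0∞} (hg : AEMeasurable g mu) :
    ∫⁻ θ, g θ ∂mu ≤ (∫⁻ θ, g θ ^ (2 : ℝ) ∂mu) ^ (1 / 2 : ℝ) := by
  have h := ENNReal.lintegral_mul_le_Lp_mul_Lq mu (p := 2) (q := 2) (f := g) (g := fun _ => 1)
    (by constructor <;> norm_num) hg aemeasurable_const
  simpa using h

lemma kernel_one : ∃ C : ℝ, 0 ≤ C ∧ ∀ r : ℝ, 0 ≤ r → r < 1 →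
    ∫⁻ θ, ‖(1 - circleMap 0 r θ)⁻¹‖ₑ ∂mu ≤ ENNReal.ofReal (C * (1 - r) ^ (-(1 / 4) : ℝ)) := by
  obtain ⟨C, hC, h⟩ := kernel_bound (s := 3 / 4) (by norm_num) (by norm_num)
  refine ⟨C.toReal, ENNReal.toReal_nonneg, fun r h0 h1 => ?_⟩
  have h2 : (0 : ℝ) < 1 - r := by linarith
  rw [ENNReal.ofReal_mul ENNReal.toReal_nonneg, ENNReal.ofReal_toReal hC]
  refine le_trans ?_ (mul_le_mul_left (h r h0 h1) _)
  have hmeas : Measurable fun θ : ℝ => ENNReal.ofReal (‖1 - circleMap 0 r θ‖ ^ (-(3 / 4) : ℝ)) := by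
    apply ENNReal.measurable_ofReal.comp
    apply Measurable.pow_const
    exact (continuous_const.sub (continuous_circleMap 0 r)).norm.measurable
  rw [← lintegral_mul_const _ hmeas]
  refine lintegral_mono fun θ => ?_
  rw [← ENNReal.ofReal_mul (by positivity), ← ofReal_norm]
  apply ENNReal.ofReal_le_ofReal
  have h3 : 1 - r ≤ ‖1 - circleMap 0 r θ‖ := by
    have := norm_sub_norm_le (1 : ℂ) (circleMap 0 r θ)
    rw [norm_circleMap_zero, abs_of_nonneg h0] at this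
    simpa using this
  have h4 : 0 < ‖1 - circleMap 0 r θ‖ := h2.trans_le h3
  rw [norm_inv, ← Real.rpow_neg_one]
  have h5 : ‖1 - circleMap 0 r θ‖ ^ (-1 : ℝ)
      = ‖1 - circleMap 0 r θ‖ ^ (-(3 / 4) : ℝ) * ‖1 - circleMap 0 r θ‖ ^ (-(1 / 4) : ℝ) := by
    rw [← Real.rpow_add h4]; norm_num
  rw [h5]
  have h6 : 0 ≤ ‖1 - circleMap 0 r θ‖ ^ (-(3 / 4) : ℝ) := by positivity
  apply mul_le_mul_of_nonneg_left _ h6
  exact Real.rpow_le_rpow_of_nonpos h2 h3 (by norm_num)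

end Pool.Agent.H303R3
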