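import Pool.Agent.H303R3.Two

set_option autoImplicit false
open Filter Topology MeasureTheory
open scoped ENNReal

namespace Pool.Agent.H303R3

lemma summable_rep (A : Set ℕ) {q : ℝ} (h0 : 0 ≤ q) (h1 : q < 1) :
    Summable fun n => (rep A n : ℝ) * q ^ n := by
  have h2 : Summable fun n : ℕ => ((n : ℝ) + 1) * q ^ n := by
    simp_rw [add_mul, one_mul]
    have h3 := summable_pow_mul_geometric_of_norm_lt_one (R := ℝ) 1 (r := q) (by rwa [Real.norm_of_nonneg h0])
    simp only [pow_one] at h3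
    exact h3.add (summable_geometric_of_lt_one h0 h1)
  refine Summable.of_nonneg_of_le (fun n => by positivity) (fun n => ?_) h2
  apply mul_le_mul_of_nonneg_right _ (by positivity)
  exact_mod_cast rep_le A n

lemma summable_rep_sq (A : Set ℕ) {q : ℝ} (h0 : 0 ≤ q) (h1 : q < 1) :
    Summable fun n => (rep A n : ℝ) ^ 2 * q ^ n := by
  have h2 : Summable fun n : ℕ => ((n : ℝ) + 1) ^ 2 * q ^ n := by
    have h3 := summable_pow_mul_geometric_of_norm_lt_one (R := ℝ) 1 (r := q) (by rwa [Real.norm_of_nonneg h0])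
    have h4 := summable_pow_mul_geometric_of_norm_lt_one (R := ℝ) 2 (r := q) (by rwa [Real.norm_of_nonneg h0])
    simp only [pow_one] at h3
    refine ((h4.add (h3.mul_left 2)).add (summable_geometric_of_lt_one h0 h1)).congr fun n => ?_
    ring
  refine Summable.of_nonneg_of_le (fun n => by positivity) (fun n => ?_) h2
  apply mul_le_mul_of_nonneg_right _ (by positivity)
  have h5 : (rep A n : ℝ) ≤ n + 1 := by exact_mod_cast rep_le A n
  exact pow_le_pow_left₀ (by positivity) h5 2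

lemma conv_sq (A : Set ℕ) : Conv (ind A * ind A) := (conv_ind A).mul (conv_ind A)

open Classical in
/-- real generating function of `A` -/
noncomputable def fr (A : Set ℕ) (q : ℝ) : ℝ := ∑' n, (if n ∈ A then (1 : ℝ) else 0) * q ^ n

lemma ev_ind_real (A : Set ℕ) (q : ℝ) : ev (ind A) (q : ℂ) = (fr A q : ℂ) := by
  classical
  unfold ev fr ind
  rw [Complex.ofReal_tsum]
  refine tsum_congr fun n => ?_
  simp only [PowerSeries.coeff_mk]
  split_ifs <;> simp

lemma fr_nonneg (A : Set ℕ) {q : ℝ} (h0 : 0 ≤ q) : 0 ≤ fr A q := by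
  unfold fr
  refine tsum_nonneg fun n => ?_
  split_ifs <;> positivity

lemma fr_sq (A : Set ℕ) {q : ℝ} (h0 : 0 ≤ q) (h1 : q < 1) :
    fr A q ^ 2 = ∑' n, (rep A n : ℝ) * q ^ n := by
  have hz : ‖(q : ℂ)‖ < 1 := by rwa [Complex.norm_real, Real.norm_of_nonneg h0]
  have h2 := ev_mul (conv_ind A) (conv_ind A) hz
  rw [ev_ind_real] at h2
  have h3 : ev (ind A * ind A) (q : ℂ) = ((∑' n, (rep A n : ℝ) * q ^ n : ℝ) : ℂ) := by
    unfold ev
    rw [Complex.ofReal_tsum]
    refine tsum_congr fun n => ?_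
    rw [coeff_ind_sq]
    push_cast
    ring
  rw [h3] at h2
  have h4 : (∑' n, (rep A n : ℝ) * q ^ n) = fr A q * fr A q := by exact_mod_cast h2
  rw [h4, sq]

lemma key_ineq (A : Set ℕ) : ∃ C : ℝ, 0 ≤ C ∧ ∀ r : ℝ, 0 ≤ r → r < 1 → ∀ m : ℝ, 0 ≤ m →
    fr A (r ^ 2) ≤ √(∑' n, ((rep A n : ℝ) - m) ^ 2 * (r ^ 2) ^ n) + m * (C * (1 - r) ^ (-(1 / 4) : ℝ)) := by
  classical
  obtain ⟨C, hC, hk⟩ := kernel_one
  refine ⟨C, hC, fun r h0 h1 m hm => ?_⟩
  have hcirc : ∀ θ : ℝ, ‖circleMap 0 r θ‖ < 1 := by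
    intro θ
    rwa [norm_circleMap_zero, abs_of_nonneg h0]
  set G : PowerSeries ℂ := ind A * ind A + ((-m : ℝ) : ℂ) • geo with hG
  have hGc : Conv G := (conv_sq A).add (conv_geo.smul _)
  have hcoef : ∀ n, PowerSeries.coeff n G = (((rep A n : ℝ) - m : ℝ) : ℂ) := by
    intro n
    rw [hG, map_add, PowerSeries.coeff_smul, coeff_ind_sq]
    unfold geo
    rw [PowerSeries.coeff_mk]
    push_cast
    simp [sub_eq_add_neg]
  have hV : ∫⁻ θ, ‖ev G (circleMap 0 r θ)‖ₑ ^ (2 : ℝ) ∂mu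
      = ENNReal.ofReal (∑' n, ((rep A n : ℝ) - m) ^ 2 * (r ^ 2) ^ n) := by
    rw [lint_parseval hGc h0 h1]
    congr 1
    refine tsum_congr fun n => ?_
    rw [hcoef, Complex.norm_real, Real.norm_eq_abs, sq_abs]
  have hf : ∫⁻ θ, ‖ev (ind A) (circleMap 0 r θ)‖ₑ ^ (2 : ℝ) ∂mu = ENNReal.ofReal (fr A (r ^ 2)) := by
    rw [lint_parseval (conv_ind A) h0 h1]
    congr 1
    unfold fr
    refine tsum_congr fun n => ?_
    unfold ind
    rw [PowerSeries.coeff_mk]
    split_ifs <;> simp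
  have hpt : ∀ θ : ℝ, ‖ev (ind A) (circleMap 0 r θ)‖ₑ ^ (2 : ℝ)
      ≤ ‖ev G (circleMap 0 r θ)‖ₑ + ENNReal.ofReal m * ‖(1 - circleMap 0 r θ)⁻¹‖ₑ := by
    intro θ
    have h2 : ev (ind A) (circleMap 0 r θ) * ev (ind A) (circleMap 0 r θ)
        = ev G (circleMap 0 r θ) + (m : ℂ) * (1 - circleMap 0 r θ)⁻¹ := by
      rw [← ev_mul (conv_ind A) (conv_ind A) (hcirc θ), hG,
        ev_add (conv_sq A) (conv_geo.smul _) (hcirc θ), ev_smul, ev_geo (hcirc θ)]
      push_cast
      ring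
    have h3 : ‖ev (ind A) (circleMap 0 r θ)‖ₑ ^ (2 : ℝ)
        = ‖ev (ind A) (circleMap 0 r θ) * ev (ind A) (circleMap 0 r θ)‖ₑ := by
      rw [enorm_mul, ENNReal.rpow_two, sq]
    rw [h3, h2]
    refine (enorm_add_le _ _).trans ?_
    rw [enorm_mul]
    have h4 : ‖(m : ℂ)‖ₑ = ENNReal.ofReal m := by
      rw [← ofReal_norm, Complex.norm_real, Real.norm_of_nonneg hm]
    rw [h4]
  have hmeas : Measurable fun θ : ℝ => ‖ev G (circleMap 0 r θ)‖ₑ :=
    (ev_cont hGc h0 h1).measurable.enorm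
  have h5 : ENNReal.ofReal (fr A (r ^ 2))
      ≤ (ENNReal.ofReal (∑' n, ((rep A n : ℝ) - m) ^ 2 * (r ^ 2) ^ n)) ^ (1 / 2 : ℝ)
        + ENNReal.ofReal m * ENNReal.ofReal (C * (1 - r) ^ (-(1 / 4) : ℝ)) := by
    calc ENNReal.ofReal (fr A (r ^ 2)) = ∫⁻ θ, ‖ev (ind A) (circleMap 0 r θ)‖ₑ ^ (2 : ℝ) ∂mu := hf.symm
      _ ≤ ∫⁻ θ, (‖ev G (circleMap 0 r θ)‖ₑ + ENNReal.ofReal m * ‖(1 - circleMap 0 r θ)⁻¹‖ₑ) ∂mu :=
          lintegral_mono hpt
      _ = ∫⁻ θ, ‖ev G (circleMap 0 r θ)‖ₑ ∂mu + ∫⁻ θ, ENNReal.ofReal m * ‖(1 - circleMap 0 r θ)⁻¹‖ₑ ∂mu :=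
          lintegral_add_left hmeas _
      _ = ∫⁻ θ, ‖ev G (circleMap 0 r θ)‖ₑ ∂mu + ENNReal.ofReal m * ∫⁻ θ, ‖(1 - circleMap 0 r θ)⁻¹‖ₑ ∂mu := by
          rw [lintegral_const_mul' _ _ ENNReal.ofReal_ne_top]
      _ ≤ _ := by
          refine add_le_add ?_ (mul_le_mul' le_rfl (hk r h0 h1))
          refine (lint_le_sqrt hmeas.aemeasurable).trans ?_
          rw [hV]
  have hVn : 0 ≤ ∑' n, ((rep A n : ℝ) - m) ^ 2 * (r ^ 2) ^ n := tsum_nonneg fun n => by positivity
  have h1r : 0 ≤ 1 - r := by linarith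
  rw [ENNReal.ofReal_rpow_of_nonneg hVn (by norm_num), ← ENNReal.ofReal_mul hm,
    ← ENNReal.ofReal_add (by positivity) (by positivity), ← Real.sqrt_eq_rpow] at h5
  rwa [ENNReal.ofReal_le_ofReal_iff (by positivity)] at h5

theorem main_two (k w : ℕ) (hw : w ^ 2 < 4 * k) (A : Set ℕ) (hA : ∃ n₀, ∀ n, n₀ ≤ n → k ≤ rep A n) :
    ∀ N, ∃ n, N ≤ n ∧ k + w + 2 ≤ rep A n := by
  by_contra hcon
  push Not at hcon
  obtain ⟨N, hN⟩ := hcon
  obtain ⟨n₀, hn₀⟩ := hA
  obtain ⟨C, hC, hkey⟩ := key_ineq A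
  set n1 := max n₀ N with hn1
  set D : ℝ := ((n1 : ℝ) + 1) ^ 2 + k * (k + w + 1) with hD
  set B : ℝ := k + w + 1 + (n1 + 1) * n1 with hB
  have hδ : (0 : ℝ) < k - w ^ 2 / 4 := by
    have : ((w : ℝ)) ^ 2 < 4 * k := by exact_mod_cast hw
    linarith
  have hw0 : (0 : ℝ) ≤ w := Nat.cast_nonneg w
  have hk0 : (0 : ℝ) ≤ k := Nat.cast_nonneg k
  have hn0 : (0 : ℝ) ≤ n1 := Nat.cast_nonneg n1
  have hB0 : 0 ≤ B := by positivity
  have hD0 : 0 ≤ D := by positivity
  -- the final inequality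
  have hfin : ∀ r : ℝ, 0 ≤ r → r < 1 →
      (k - w ^ 2 / 4 : ℝ) ≤ 2 * √B * (√2 * B * C * (1 - r) ^ (1 / 4 : ℝ)) + (1 - r ^ 2) * (D * n1) := by
    intro r h0 h1
    set q := r ^ 2 with hq
    have hq0 : 0 ≤ q := by positivity
    have hq1 : q < 1 := by nlinarith
    have h1q : 0 < 1 - q := by linarith
    set S := ∑' n, (rep A n : ℝ) * q ^ n with hS
    have hSs := summable_rep A hq0 hq1
    have hSs2 := summable_rep_sq A hq0 hq1
    have hgs := summable_geometric_of_lt_one hq0 hq1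
    have hS0 : 0 ≤ S := tsum_nonneg fun n => by positivity
    set m := (1 - q) * S with hm
    have hm0 : 0 ≤ m := by positivity
    have hf2 : fr A q ^ 2 = S := fr_sq A hq0 hq1
    have hf0 : 0 ≤ fr A q := fr_nonneg A hq0
    -- exceptional sum
    have hex : ∀ c : ℝ, 0 ≤ c → HasSum (fun n : ℕ => (if n < n1 then c else 0) * q ^ n)
        (∑ n ∈ Finset.range n1, c * q ^ n) := by
      intro c _
      have : (∑ n ∈ Finset.range n1, c * q ^ n)
          = ∑ n ∈ Finset.range n1, (if n < n1 then c else 0) * q ^ n := by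
        refine Finset.sum_congr rfl fun n hn => ?_
        rw [if_pos (Finset.mem_range.mp hn)]
      rw [this]
      apply hasSum_sum_of_ne_finset_zero
      intro n hn
      rw [if_neg (by simpa using hn), zero_mul]
    have hexle : ∀ c : ℝ, 0 ≤ c → (∑ n ∈ Finset.range n1, c * q ^ n) ≤ c * n1 := by
      intro c hc
      calc (∑ n ∈ Finset.range n1, c * q ^ n) ≤ ∑ n ∈ Finset.range n1, c := by
            refine Finset.sum_le_sum fun n _ => ?_
            have : q ^ n ≤ 1 := pow_le_one₀ hq0 hq1.le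
            nlinarith
        _ = c * n1 := by rw [Finset.sum_const, Finset.card_range, nsmul_eq_mul, mul_comm]
    -- bound of m
    have hmB : m ≤ B := by
      have h2 : S ≤ (k + w + 1) * (1 - q)⁻¹ + (n1 + 1) * n1 := by
        have h3 : S ≤ ∑' n : ℕ, (((k : ℝ) + w + 1) * q ^ n + (if n < n1 then ((n1 : ℝ) + 1) else 0) * q ^ n) := by
          apply hSs.tsum_le_tsum _ ((hgs.mul_left _).add (hex (n1 + 1) (by positivity)).summable)
          intro n
          rw [← add_mul]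
          apply mul_le_mul_of_nonneg_right _ (by positivity)
          by_cases hn : n < n1
          · rw [if_pos hn]
            have h4 : (rep A n : ℝ) ≤ n + 1 := by exact_mod_cast rep_le A n
            have h5 : (n : ℝ) ≤ n1 := by exact_mod_cast hn.le
            linarith
          · rw [if_neg hn]
            have h4 : rep A n < k + w + 2 := hN n (le_trans (le_max_right _ _) (not_lt.mp hn))
            have h5 : (rep A n : ℝ) ≤ k + w + 1 := by exact_mod_cast Nat.lt_succ_iff.mp h4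
            linarith
        rw [(hgs.mul_left _).tsum_add (hex (n1 + 1) (by positivity)).summable, tsum_mul_left,
          tsum_geometric_of_lt_one hq0 hq1, (hex (n1 + 1) (by positivity)).tsum_eq] at h3
        exact h3.trans (by gcongr; exact hexle _ (by positivity))
      calc m ≤ (1 - q) * ((k + w + 1) * (1 - q)⁻¹ + (n1 + 1) * n1) := by rw [hm]; gcongr
        _ = (k + w + 1) + (1 - q) * ((n1 + 1) * n1) := by field_simp
        _ ≤ B := by
            rw [hB]
            have : (1 - q) * ((n1 + 1) * n1 : ℝ) ≤ (n1 + 1) * n1 := by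
              have h6 : (0 : ℝ) ≤ (n1 + 1) * n1 := by positivity
              nlinarith
            linarith
    -- bound of V
    set V := ∑' n, ((rep A n : ℝ) - m) ^ 2 * q ^ n with hV
    have hVeq : V = ∑' n, (rep A n : ℝ) ^ 2 * q ^ n - 2 * m * S + m ^ 2 * (1 - q)⁻¹ := by
      have h2 : ∀ n : ℕ, ((rep A n : ℝ) - m) ^ 2 * q ^ n
          = ((rep A n : ℝ) ^ 2 * q ^ n - 2 * m * ((rep A n : ℝ) * q ^ n)) + m ^ 2 * q ^ n := by
        intro n; ring
      rw [hV, tsum_congr h2, (hSs2.sub (hSs.mul_left _)).tsum_add (hgs.mul_left _),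
        hSs2.tsum_sub (hSs.mul_left _), tsum_mul_left, tsum_mul_left, tsum_geometric_of_lt_one hq0 hq1]
    have hR2 : ∑' n, (rep A n : ℝ) ^ 2 * q ^ n
        ≤ (2 * k + w + 1) * S - k * (k + w + 1) * (1 - q)⁻¹ + D * n1 := by
      have h3 : ∑' n, (rep A n : ℝ) ^ 2 * q ^ n ≤ ∑' n : ℕ, (((2 * (k : ℝ) + w + 1) * ((rep A n : ℝ) * q ^ n)
          - k * (k + w + 1) * q ^ n) + (if n < n1 then D else 0) * q ^ n) := by
        apply hSs2.tsum_le_tsum _ (((hSs.mul_left _).sub (hgs.mul_left _)).add (hex D hD0).summable)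
        intro n
        have h4 : (2 * (k : ℝ) + w + 1) * ((rep A n : ℝ) * q ^ n) - k * (k + w + 1) * q ^ n
            + (if n < n1 then D else 0) * q ^ n
            = ((2 * (k : ℝ) + w + 1) * (rep A n : ℝ) - k * (k + w + 1) + (if n < n1 then D else 0)) * q ^ n := by
          ring
        rw [h4]
        apply mul_le_mul_of_nonneg_right _ (by positivity)
        by_cases hn : n < n1
        · rw [if_pos hn]
          have h5 : (rep A n : ℝ) ≤ n + 1 := by exact_mod_cast rep_le A n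
          have h6 : (n : ℝ) ≤ n1 := by exact_mod_cast hn.le
          have h7 : (rep A n : ℝ) ^ 2 ≤ (n1 + 1) ^ 2 := pow_le_pow_left₀ (by positivity) (by linarith) 2
          have h8 : (0 : ℝ) ≤ (2 * (k : ℝ) + w + 1) * (rep A n : ℝ) := by positivity
          rw [hD]
          linarith
        · rw [if_neg hn]
          have h5 : rep A n < k + w + 2 := hN n (le_trans (le_max_right _ _) (not_lt.mp hn))
          have h6 : (rep A n : ℝ) ≤ k + w + 1 := by exact_mod_cast Nat.lt_succ_iff.mp h5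
          have h7 : k ≤ rep A n := hn₀ n (le_trans (le_max_left _ _) (not_lt.mp hn))
          have h8 : (k : ℝ) ≤ rep A n := by exact_mod_cast h7
          nlinarith [mul_nonneg (sub_nonneg.mpr h8) (sub_nonneg.mpr h6)]
      rw [((hSs.mul_left _).sub (hgs.mul_left _)).tsum_add (hex D hD0).summable,
        (hSs.mul_left _).tsum_sub (hgs.mul_left _), tsum_mul_left, tsum_mul_left,
        tsum_geometric_of_lt_one hq0 hq1, (hex D hD0).tsum_eq] at h3
      refine h3.trans ?_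
      have := hexle D hD0
      linarith
    have hVle : (1 - q) * V ≤ m - (k - w ^ 2 / 4) + (1 - q) * (D * n1) := by
      have h2 : (1 - q) * V ≤ (1 - q) * ((2 * k + w + 1) * S - k * (k + w + 1) * (1 - q)⁻¹ + D * n1
          - 2 * m * S + m ^ 2 * (1 - q)⁻¹) := by
        apply mul_le_mul_of_nonneg_left _ h1q.le
        rw [hVeq]; linarith
      have h3 : (1 - q) * ((2 * k + w + 1) * S - k * (k + w + 1) * (1 - q)⁻¹ + D * n1
          - 2 * m * S + m ^ 2 * (1 - q)⁻¹) = (2 * k + w + 1) * m - k * (k + w + 1) + (1 - q) * (D * n1)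
          - 2 * m * m + m ^ 2 := by
        rw [hm]; field_simp
      rw [h3] at h2
      nlinarith [sq_nonneg (m - (2 * k + w) / 2)]
    have hV0 : 0 ≤ V := tsum_nonneg fun n => by positivity
    have hmain := hkey r h0 h1 m hm0
    rw [← hq, ← hV] at hmain
    -- multiply by sqrt(1-q)
    set a := √(1 - q) * fr A q with ha
    have ha0 : 0 ≤ a := by positivity
    have ha2 : a ^ 2 = m := by
      rw [ha, mul_pow, Real.sq_sqrt h1q.le, hf2]
    set b := √((1 - q) * V) with hb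
    have hb0 : 0 ≤ b := Real.sqrt_nonneg _
    have hb2 : b ^ 2 = (1 - q) * V := Real.sq_sqrt (by positivity)
    set e := √(1 - q) * (m * (C * (1 - r) ^ (-(1 / 4) : ℝ))) with he
    have h1r : 0 < 1 - r := by linarith
    have he0 : 0 ≤ e := by positivity
    have hab : a ≤ b + e := by
      rw [ha, hb, he, Real.sqrt_mul h1q.le, ← mul_add]
      exact mul_le_mul_of_nonneg_left hmain (Real.sqrt_nonneg _)
    have hele : e ≤ √2 * B * C * (1 - r) ^ (1 / 4 : ℝ) := by
      have h2 : √(1 - q) ≤ √2 * (1 - r) ^ (1 / 2 : ℝ) := by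
        rw [← Real.sqrt_eq_rpow, ← Real.sqrt_mul (by norm_num)]
        apply Real.sqrt_le_sqrt
        rw [hq]; nlinarith
      calc e ≤ (√2 * (1 - r) ^ (1 / 2 : ℝ)) * (B * (C * (1 - r) ^ (-(1 / 4) : ℝ))) := by
            rw [he]; gcongr
        _ = √2 * B * C * ((1 - r) ^ (1 / 2 : ℝ) * (1 - r) ^ (-(1 / 4) : ℝ)) := by ring
        _ = √2 * B * C * (1 - r) ^ (1 / 4 : ℝ) := by
            rw [← Real.rpow_add h1r]; norm_num
    have haB : a ≤ √B := by
      apply Real.le_sqrt_of_sq_le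
      rw [ha2]; exact hmB
    have hδ2 : (k - w ^ 2 / 4 : ℝ) ≤ 2 * a * e + (1 - q) * (D * n1) := by
      by_cases hae : e ≤ a
      · have h2 : (a - e) ^ 2 ≤ b ^ 2 := pow_le_pow_left₀ (by linarith) (by linarith) 2
        rw [hb2] at h2
        nlinarith [sq_nonneg e]
      · push Not at hae
        have h2 : 0 ≤ (1 - q) * V := by positivity
        nlinarith
    refine hδ2.trans ?_
    have h9 : 2 * a * e ≤ 2 * √B * (√2 * B * C * (1 - r) ^ (1 / 4 : ℝ)) := by gcongr
    linarith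
  have hlim : Tendsto (fun r : ℝ => 2 * √B * (√2 * B * C * (1 - r) ^ (1 / 4 : ℝ)) + (1 - r ^ 2) * (D * n1))
      (𝓝[<] 1) (𝓝 (2 * √B * (√2 * B * C * (1 - 1) ^ (1 / 4 : ℝ)) + (1 - 1 ^ 2) * (D * n1))) := by
    apply Tendsto.mono_left _ nhdsWithin_le_nhds
    apply Tendsto.add
    · apply Tendsto.const_mul
      apply Tendsto.const_mul
      have : Tendsto (fun r : ℝ => 1 - r) (𝓝 1) (𝓝 (1 - 1)) := tendsto_const_nhds.sub tendsto_id
      exact this.rpow_const (Or.inr (by norm_num))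
    · apply Tendsto.mul_const
      exact tendsto_const_nhds.sub (tendsto_id.pow 2)
  have hle := ge_of_tendsto (b := (k - w ^ 2 / 4 : ℝ)) hlim (by
    have h1 : Set.Ioo (0 : ℝ) 1 ∈ 𝓝[<] (1 : ℝ) := Ioo_mem_nhdsLT (by norm_num)
    filter_upwards [h1] with r hr
    exact hfin r hr.1.le hr.2)
  rw [sub_self, Real.zero_rpow (by norm_num)] at hle
  norm_num at hle
  linarith

end Pool.Agent.H303R3
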